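import Pool.Agent.TalK.Key
import Pool.Agent.Talagrand.Limit

/-!
# The union bound for the set `K - (1/2) K - (1/2) K`
-/

set_option autoImplicit false

open MeasureTheory ProbabilityTheory Set Metric
open scoped ENNReal NNReal

namespace Pool.Agent.TalK

open Pool.Agent.Talagrand

variable {n : ℕ} {ι : Type} [Fintype ι]

/-- The set `K - (1/2) K - (1/2) K`. -/
def S3 (K : Set (Fin n → ℝ)) : Set (Fin n → ℝ) :=
  (fun q : (Fin n → ℝ) × (Fin n → ℝ) × (Fin n → ℝ) => q.1 - (1/2:ℝ) • (q.2.1 + q.2.2)) ''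
    (K ×ˢ (K ×ˢ K))

lemma S3_compact {K : Set (Fin n → ℝ)} (hK : IsCompact K) : IsCompact (S3 K) :=
  (hK.prod (hK.prod hK)).image (by fun_prop)

lemma union_bound (hn : 0 < n) {K : Set (Fin n → ℝ)} (hK : IsCompact K) {α : ℝ} (hα : 0 < α)
    (hKγ : α ≤ (gam n).real K) {β R R₁ : ℝ} (hβ : 0 < β) (hR : 0 < R)
    {x : ι → Fin n → ℝ} (hx : ∀ i, ‖x i‖ ≤ R₁) (hxS : ∀ i, x i ∉ S3 K)
    {h : ι → Fin n → ℝ} (hmin : ∀ h', Psi β R x h ≤ Psi β R x h') :
    (2 * α - 1) * ∑ i, pm β R x h i ≤ 1 - α := by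
  have hKne : K.Nonempty := by
    by_contra hcon
    rw [not_nonempty_iff_eq_empty] at hcon
    rw [hcon] at hKγ
    simp at hKγ
    linarith
  have hS3c := S3_compact hK
  have hS3ne : (S3 K).Nonempty := by
    obtain ⟨y, hy⟩ := hKne
    exact ⟨_, ⟨(y, y, y), ⟨hy, hy, hy⟩, rfl⟩⟩
  obtain ⟨δ, hδ, hδi⟩ := exists_pos_le (d := fun i => infDist (x i) (S3 K)) (fun i =>
    (hS3c.isClosed.notMem_iff_infDist_pos hS3ne).mp (hxS i))
  set ε : ℝ := δ / 10 with hε
  have hε0 : 0 < ε := by positivity
  obtain ⟨M, hM⟩ : ∃ M : ℝ, ∀ y ∈ K, ‖y‖ ≤ M := hK.isBounded.exists_norm_le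
  have hM0 : 0 ≤ M := by
    obtain ⟨y, hy⟩ := hKne
    exact (norm_nonneg y).trans (hM y hy)
  obtain ⟨c₀, hc1, hc2, hc3⟩ : ∃ c₀ : ℝ, 1 / 2 < c₀ ∧ c₀ ≤ 1 ∧ (c₀ - 1 / 2) * (2 * M) ≤ ε := by
    refine ⟨1 / 2 + min (1 / 2) (ε / (2 * M + 1)), ?_, ?_, ?_⟩
    · have : 0 < min (1 / 2) (ε / (2 * M + 1)) := lt_min (by norm_num) (by positivity)
      linarith
    · have : min (1 / 2) (ε / (2 * M + 1)) ≤ 1 / 2 := min_le_left _ _
      linarith
    · have h1 : min (1 / 2) (ε / (2 * M + 1)) ≤ ε / (2 * M + 1) := min_le_right _ _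
      rw [add_sub_cancel_left]
      calc min (1 / 2) (ε / (2 * M + 1)) * (2 * M) ≤ ε / (2 * M + 1) * (2 * M) := by gcongr
        _ ≤ ε := by
          rw [div_mul_eq_mul_div, div_le_iff₀ (by positivity)]
          nlinarith
  obtain ⟨f, hf0, hf1, hfK, hfout, ⟨Lf, hfL⟩, T, hT0, hT⟩ := exists_f hK hε0
  set G : Set (Fin n → ℝ) := (fun q : (Fin n → ℝ) × (Fin n → ℝ) => c₀ • (q.1 + q.2)) ''
    (cthickening ε K ×ˢ cthickening ε K) with hG
  have hGne : G.Nonempty := by
    obtain ⟨y, hy⟩ := hKne
    have : y ∈ cthickening ε K := self_subset_cthickening K hy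
    exact ⟨_, ⟨(y, y), ⟨this, this⟩, rfl⟩⟩
  set g : (Fin n → ℝ) → ℝ := fun w => max 0 (1 - (1 / ε) * infDist w G) with hg
  have hgL : LipschitzWith (Real.toNNReal (1 / ε)) g := by
    apply LipschitzWith.of_dist_le_mul
    intro w w'
    rw [Real.coe_toNNReal _ (by positivity), Real.dist_eq]
    have h1 := (lipschitz_infDist_pt G).dist_le_mul w w'
    rw [Real.dist_eq, NNReal.coe_one, one_mul] at h1
    simp only [hg]
    calc |max 0 (1 - (1 / ε) * infDist w G) - max 0 (1 - (1 / ε) * infDist w' G)|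
        ≤ |(1 - (1 / ε) * infDist w G) - (1 - (1 / ε) * infDist w' G)| := by
          rw [max_comm 0, max_comm 0]
          exact abs_max_sub_max_le_abs _ _ _
      _ = (1 / ε) * |infDist w G - infDist w' G| := by
          have : (1 - (1 / ε) * infDist w G) - (1 - (1 / ε) * infDist w' G)
            = -((1 / ε) * (infDist w G - infDist w' G)) := by ring
          rw [this, abs_neg, abs_mul, abs_of_pos (by positivity : 0 < 1 / ε)]
      _ ≤ (1 / ε) * dist w w' := by gcongr
  have hg0 : ∀ w, 0 ≤ g w := fun w => le_max_left _ _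
  have hg1 : ∀ w, g w ≤ 1 := by
    intro w
    apply max_le zero_le_one
    have : 0 ≤ (1 / ε) * infDist w G := by
      have := infDist_nonneg (x := w) (s := G)
      positivity
    linarith
  have hfg : ∀ z z', f z + f z' - 1 ≤ g (c₀ • (z + z')) := by
    intro z z'
    by_cases hz : z ∈ thickening ε K
    · by_cases hz' : z' ∈ thickening ε K
      · have hmem : c₀ • (z + z') ∈ G :=
          ⟨(z, z'), ⟨thickening_subset_cthickening _ _ hz,
            thickening_subset_cthickening _ _ hz'⟩, rfl⟩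
        have : g (c₀ • (z + z')) = 1 := by
          simp only [hg]
          rw [infDist_zero_of_mem hmem]; simp
        rw [this]
        have := hf1 z
        have := hf1 z'
        linarith
      · rw [hfout z' hz']
        have := hf1 z
        have := hg0 (c₀ • (z + z'))
        linarith
    · rw [hfout z hz]
      have := hf1 z'
      have := hg0 (c₀ • (z + z'))
      linarith
  have hgK : ∀ i, ∀ y ∈ K, g (y - x i) = 0 := by
    intro i y hy
    simp only [hg]
    apply max_eq_left
    have hdist : ε ≤ infDist (y - x i) G := by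
      by_contra hcon
      push Not at hcon
      obtain ⟨w, ⟨⟨u, u'⟩, ⟨hu, hu'⟩, rfl⟩, hw⟩ := (infDist_lt_iff hGne).mp hcon
      simp only at hw hu hu'
      rw [hK.cthickening_eq_biUnion_closedBall hε0.le] at hu hu'
      simp only [mem_iUnion, mem_closedBall, exists_prop] at hu hu'
      obtain ⟨z, hz, huz⟩ := hu
      obtain ⟨z', hz', huz'⟩ := hu'
      have hmem : y - (1/2:ℝ) • (z + z') ∈ S3 K := ⟨(y, z, z'), ⟨hy, hz, hz'⟩, rfl⟩
      have h1 : infDist (x i) (S3 K) ≤ dist (x i) (y - (1/2:ℝ) • (z + z')) :=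
        infDist_le_dist_of_mem hmem
      have h2 : dist (x i) (y - (1/2:ℝ) • (z + z')) < 10 * ε := by
        rw [dist_eq_norm] at hw huz huz' ⊢
        have hz1 := hM z hz
        have hz2 := hM z' hz'
        have e : x i - (y - (1/2:ℝ) • (z + z')) = -((y - x i) - c₀ • (u + u'))
            - ((c₀ • (u - z) + c₀ • (u' - z')) + (c₀ - 1 / 2) • (z + z')) := by
          simp only [smul_add, smul_sub, sub_smul]
          abel
        have hA : ‖(c₀ - 1 / 2) • (z + z')‖ ≤ ε := by
          rw [norm_smul, Real.norm_eq_abs, abs_of_pos (by linarith)]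
          refine le_trans ?_ hc3
          have h5 : ‖z + z'‖ ≤ 2 * M := (norm_add_le _ _).trans (by linarith)
          have h6 : 0 ≤ c₀ - 1 / 2 := by linarith
          gcongr
        have hB : ‖c₀ • (u - z) + c₀ • (u' - z')‖ ≤ 2 * ε := by
          refine (norm_add_le _ _).trans ?_
          rw [norm_smul, norm_smul, Real.norm_eq_abs, abs_of_pos (by linarith)]
          have h7 : c₀ * ‖u - z‖ ≤ 1 * ε := by gcongr
          have h8 : c₀ * ‖u' - z'‖ ≤ 1 * ε := by gcongr
          linarith
        rw [e]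
        calc ‖-((y - x i) - c₀ • (u + u'))
              - ((c₀ • (u - z) + c₀ • (u' - z')) + (c₀ - 1 / 2) • (z + z'))‖
            ≤ ‖-((y - x i) - c₀ • (u + u'))‖
              + ‖(c₀ • (u - z) + c₀ • (u' - z')) + (c₀ - 1 / 2) • (z + z')‖ :=
              norm_sub_le _ _
          _ ≤ ‖-((y - x i) - c₀ • (u + u'))‖
              + (‖c₀ • (u - z) + c₀ • (u' - z')‖ + ‖(c₀ - 1 / 2) • (z + z')‖) := by
              gcongr; exact norm_add_le _ _
          _ ≤ ‖(y - x i) - c₀ • (u + u')‖ + (2 * ε + ε) := by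
              rw [norm_neg]
              gcongr
          _ < 10 * ε := by linarith
      have h3 := hδi i
      rw [hε] at h2
      linarith
    have : 1 ≤ (1 / ε) * infDist (y - x i) G := by
      rw [one_div, inv_mul_eq_div, le_div_iff₀ hε0]
      linarith
    linarith
  have hC : ∀ w, |f w| ≤ 1 := fun w => by
    rw [abs_of_nonneg (hf0 w)]; exact hf1 w
  have hfc := hfL.continuous
  have hgc := hgL.continuous
  have hfint : α ≤ ∫ y, f y ∂(gam n) := by
    refine hKγ.trans ?_
    have hKm : MeasurableSet K := hK.measurableSet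
    have e : (gam n).real K = ∫ y, K.indicator (fun _ => (1:ℝ)) y ∂(gam n) := by
      rw [integral_indicator hKm]; simp
    rw [e]
    apply integral_mono
    · exact (integrable_const (1:ℝ)).indicator hKm
    · exact Integrable.of_bound hfc.aestronglyMeasurable 1 (Filter.Eventually.of_forall hC)
    · intro y
      simp only [indicator]
      split_ifs with hy
      · rw [hfK y hy]
      · exact hf0 y
  have hKm : MeasurableSet K := hK.measurableSet
  -- each piece
  have hpiece : ∀ i, (2 * α - 1) * pm β R x h i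
      ≤ ∫ y in Kᶜ ∩ closedBall (0 : Fin n → ℝ) R, rho β x h i y ∂(gam n) := by
    intro i
    have hp := pm_pos (β := β) hR x h i
    have hD := ph_dens (β := β) hR x h i
    have hkey := key hn hc1 hfL hgL hC hT0 hT hfg hD
    rw [ph_bary hβ hR hx hmin i] at hkey
    have h1 : ∫ y, g (y - x i) * ph β R x h i y
        = (∫ y in K, g (y - x i) * ph β R x h i y)
          + ∫ y in Kᶜ, g (y - x i) * ph β R x h i y :=
      (integral_add_compl hKm (hD.integrable_mul_cont (by fun_prop))).symm
    have h2 : ∫ y in K, g (y - x i) * ph β R x h i y = 0 := by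
      rw [setIntegral_congr_fun hKm (g := fun _ => (0:ℝ))]
      · simp
      · intro y hy
        simp only [hgK i y hy, zero_mul]
    have h3 : ∫ y in Kᶜ, g (y - x i) * ph β R x h i y ≤ ∫ y in Kᶜ, 1 * ph β R x h i y := by
      apply setIntegral_mono
      · exact (hD.integrable_mul_cont (by fun_prop)).integrableOn
      · exact (hD.integrable_mul_cont (by fun_prop)).integrableOn
      · intro y
        simp only
        have := hD.nn y
        have := hg1 (y - x i)
        gcongr
    rw [ph_integral x h i (fun _ => 1) hKm.compl] at h3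
    simp only [one_mul] at h3
    have h4 : 2 * α - 1 ≤ (pm β R x h i)⁻¹ *
        ∫ y in Kᶜ ∩ closedBall (0 : Fin n → ℝ) R, rho β x h i y ∂(gam n) := by
      linarith
    rw [inv_mul_eq_div, le_div_iff₀ hp] at h4
    exact h4
  rw [Finset.mul_sum]
  refine (Finset.sum_le_sum (fun i _ => hpiece i)).trans ?_
  have hrc : ∀ i, Continuous (rho β x h i) := fun i => rho_cont β x h i
  rw [← integral_finsetSum _ (fun i _ =>
    (integrableOn_ball (R := R) (hrc i)).mono_set inter_subset_right)]
  calc ∫ y in Kᶜ ∩ closedBall (0 : Fin n → ℝ) R, ∑ i, rho β x h i y ∂(gam n)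
      ≤ ∫ _y in Kᶜ ∩ closedBall (0 : Fin n → ℝ) R, (1:ℝ) ∂(gam n) := by
        apply setIntegral_mono
        · exact (integrableOn_ball (R := R) (by fun_prop)).mono_set inter_subset_right
        · exact (integrable_const _)
        · intro y
          exact sum_rho_le_one
    _ = (gam n).real (Kᶜ ∩ closedBall (0 : Fin n → ℝ) R) := by simp
    _ ≤ (gam n).real Kᶜ := measureReal_mono inter_subset_left
    _ = 1 - (gam n).real K := by rw [probReal_compl_eq_one_sub hKm]
    _ ≤ 1 - α := by linarith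

end Pool.Agent.TalK
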