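import Pool.Agent.Talagrand.Split

/-!
# Sharp covariance bound for strongly log-concave densities
-/

set_option autoImplicit false

open MeasureTheory Set
open scoped ENNReal

namespace Pool.Agent.TalK

open Pool.Agent.Talagrand

variable {n : ℕ} {R κ : ℝ} {φ : (Fin n → ℝ) → ℝ}

/-- Consequence of the exponential moment estimate at every scale. -/
lemma one_add_var_le (h : Dens R κ φ) (hκ : 0 < κ) (u : Fin n → ℝ) (s : ℝ) :
    1 + s ^ 2 * ∫ x, (∑ k, u k * (x k - bary φ k)) ^ 2 * φ x
      ≤ Real.exp (s ^ 2 * ((∑ k, u k ^ 2) / κ)) := by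
  set U := ∑ k, u k ^ 2 with hU
  set T : (Fin n → ℝ) → ℝ := fun x => ∑ k, u k * (x k - bary φ k) with hT
  have hTc : Continuous T := by fun_prop
  have hexp := h.exp_moment hκ (fun k => s * u k)
  have e0 : (∑ k, (s * u k) ^ 2) / κ = s ^ 2 * (U / κ) := by
    simp only [mul_pow]
    rw [← Finset.mul_sum, ← hU]
    ring
  rw [e0] at hexp
  set c : ℝ := s * ∑ k, u k * bary φ k with hc
  have eL : ∀ x : Fin n → ℝ, ∑ k, s * u k * x k = s * T x + c := by
    intro x
    simp only [hT, hc, Finset.mul_sum, ← Finset.sum_add_distrib]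
    exact Finset.sum_congr rfl (fun k _ => by ring)
  have i1 : Integrable (fun x => Real.exp (s * T x) * φ x) :=
    h.integrable_mul_cont (by fun_prop)
  have i2 : Integrable (fun x => Real.exp (-(s * T x)) * φ x) :=
    h.integrable_mul_cont (by fun_prop)
  have iT : Integrable (fun x => T x * φ x) := h.integrable_mul_cont hTc
  have iT2 : Integrable (fun x => T x ^ 2 * φ x) := h.integrable_mul_cont (by fun_prop)
  have hexp' : (∫ x, Real.exp (s * T x) * φ x) * (∫ x, Real.exp (-(s * T x)) * φ x)
      ≤ Real.exp (s ^ 2 * (U / κ)) := by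
    have e1 : ∀ x, Real.exp (∑ k, s * u k * x k) * φ x
        = Real.exp c * (Real.exp (s * T x) * φ x) := by
      intro x; rw [eL, Real.exp_add]; ring
    have e2 : ∀ x, Real.exp (-∑ k, s * u k * x k) * φ x
        = Real.exp (-c) * (Real.exp (-(s * T x)) * φ x) := by
      intro x; rw [eL, neg_add, Real.exp_add]; ring
    simp only [e1, e2] at hexp
    rw [integral_const_mul, integral_const_mul] at hexp
    have e3 : Real.exp c * Real.exp (-c) = 1 := by rw [← Real.exp_add]; simp
    calc _ = (Real.exp c * Real.exp (-c)) * ((∫ x, Real.exp (s * T x) * φ x)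
          * (∫ x, Real.exp (-(s * T x)) * φ x)) := by rw [e3, one_mul]
      _ ≤ _ := by
        refine le_trans (le_of_eq ?_) hexp
        ring
  have hT0 : ∫ x, T x * φ x = 0 := h.integral_lin u
  set a := ∫ x, Real.exp (s * T x) * φ x with ha
  set b := ∫ x, Real.exp (-(s * T x)) * φ x with hb
  have ha1 : 1 ≤ a := by
    have : ∫ x, (1 + s * T x) * φ x = 1 := by
      have e : ∀ x, (1 + s * T x) * φ x = φ x + s * (T x * φ x) := fun x => by ring
      simp only [e]
      rw [integral_add h.int (iT.const_mul _), h.one, integral_const_mul, hT0]; simp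
    rw [← this]
    apply integral_mono _ i1
    · intro x
      have h1 := Real.add_one_le_exp (s * T x)
      have := h.nn x
      have h2 : 1 + s * T x ≤ Real.exp (s * T x) := by linarith
      simp only
      gcongr
    · exact h.integrable_mul_cont (F := fun x => 1 + s * T x) (by fun_prop)
  have hb1 : 1 ≤ b := by
    have : ∫ x, (1 - s * T x) * φ x = 1 := by
      have e : ∀ x, (1 - s * T x) * φ x = φ x - s * (T x * φ x) := fun x => by ring
      simp only [e]
      rw [integral_sub h.int (iT.const_mul _), h.one, integral_const_mul, hT0]; simp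
    rw [← this]
    apply integral_mono _ i2
    · intro x
      have h1 := Real.add_one_le_exp (-(s * T x))
      have := h.nn x
      have h2 : 1 - s * T x ≤ Real.exp (-(s * T x)) := by linarith
      simp only
      gcongr
    · exact h.integrable_mul_cont (F := fun x => 1 - s * T x) (by fun_prop)
  have hab : 2 + s ^ 2 * ∫ x, T x ^ 2 * φ x ≤ a + b := by
    have e1 : 2 + s ^ 2 * ∫ x, T x ^ 2 * φ x = ∫ x, (2 + (s * T x) ^ 2) * φ x := by
      have e : ∀ x, (2 + (s * T x) ^ 2) * φ x = 2 * φ x + s ^ 2 * (T x ^ 2 * φ x) :=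
        fun x => by ring
      simp only [e]
      rw [integral_add (h.int.const_mul _) (iT2.const_mul _), integral_const_mul,
        integral_const_mul, h.one]; ring
    rw [e1, ha, hb, ← integral_add i1 i2]
    apply integral_mono
    · exact h.integrable_mul_cont (F := fun x => 2 + (s * T x) ^ 2) (by fun_prop)
    · exact i1.add i2
    · intro x
      have h1 := two_add_sq_le (s * T x)
      have := h.nn x
      simp only
      calc (2 + (s * T x) ^ 2) * φ x ≤ (Real.exp (s * T x) + Real.exp (-(s * T x))) * φ x := by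
            gcongr
        _ = _ := by ring
  have hprod : a + b - 1 ≤ a * b := by nlinarith
  linarith

/-- Sharp covariance bound. -/
lemma cov_le (h : Dens R κ φ) (hκ : 0 < κ) (u : Fin n → ℝ) :
    ∫ x, (∑ k, u k * (x k - bary φ k)) ^ 2 * φ x ≤ 1 / κ * ∑ k, u k ^ 2 := by
  set V := ∫ x, (∑ k, u k * (x k - bary φ k)) ^ 2 * φ x with hV
  set W := (∑ k, u k ^ 2) / κ with hW
  have hW0 : 0 ≤ W := by
    have : 0 ≤ ∑ k, u k ^ 2 := Finset.sum_nonneg (fun k _ => sq_nonneg _)
    positivity
  have e : 1 / κ * ∑ k, u k ^ 2 = W := by rw [hW]; ring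
  rw [e]
  apply le_of_forall_pos_le_add
  intro η hη
  -- choose the square of the scale
  set t : ℝ := min (1 / (W + 1)) (η / (W ^ 2 + 1)) with ht
  have ht0 : 0 < t := lt_min (by positivity) (by positivity)
  have ht1 : t * W ≤ 1 := by
    have h1 : t ≤ 1 / (W + 1) := min_le_left _ _
    rw [le_div_iff₀ (by positivity)] at h1
    nlinarith
  have ht2 : t * W ^ 2 ≤ η := by
    have h1 : t ≤ η / (W ^ 2 + 1) := min_le_right _ _
    rw [le_div_iff₀ (by positivity)] at h1
    nlinarith
  have h1 := one_add_var_le h hκ u (Real.sqrt t)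
  rw [Real.sq_sqrt ht0.le, ← hV, ← hW] at h1
  have h2 := Real.abs_exp_sub_one_sub_id_le (x := t * W) (by
    rw [abs_of_nonneg (by positivity)]; exact ht1)
  have h3 := (abs_le.mp h2).2
  have h4 : t * V ≤ t * (W + η) := by
    have : (t * W) ^ 2 = t * (t * W ^ 2) := by ring
    have h5 : t * (t * W ^ 2) ≤ t * η := by gcongr
    nlinarith
  exact le_of_mul_le_mul_left h4 ht0

end Pool.Agent.TalK
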