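import Pool.Agent.TalK.Finite

/-!
# The infinite-dimensional theorem for `K - (1/2) K - (1/2) K`
-/

set_option autoImplicit false

open MeasureTheory ProbabilityTheory Set Metric Filter Topology
open scoped ENNReal NNReal Pointwise

namespace Pool.Agent.TalK

open Pool.Agent.Talagrand

/-- Transfer of convex subsets from the finite dimensional projections. -/
theorem transfer {S : Set (ℕ → ℝ)} (hS : IsCompact S) {δ : ℝ} {d : ℕ → ℝ}
    (hd : Tendsto d atTop (𝓝 δ))
    (hfin : ∀ n : ℕ, ∃ C : Set (Fin (n + 1) → ℝ), IsCompact C ∧ Convex ℝ C ∧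
      C ⊆ pr (n + 1) '' S ∧ d n ≤ (gam (n + 1)).real C) :
    ∃ C : Set (ℕ → ℝ), IsCompact C ∧ Convex ℝ C ∧ C ⊆ S ∧ δ ≤ gamInf.real C := by
  have hbd : ∀ i : ℕ, ∃ M : ℝ, ∀ x ∈ S, |x i| ≤ M := by
    intro i
    obtain ⟨M, hM⟩ := (hS.image (continuous_apply i)).isBounded.exists_norm_le
    exact ⟨M, fun x hx => hM _ ⟨x, hx, rfl⟩⟩
  choose M hM using hbd
  set B : ℕ → Set (ℕ → ℝ) := fun n => {x | ∀ i < n, |x i| ≤ M i} with hB
  set Q : Set (ℕ → ℝ) := Set.pi univ (fun i => Icc (-M i) (M i)) with hQdef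
  have hQ : IsCompact Q := isCompact_univ_pi (fun i => isCompact_Icc)
  have hQc : Convex ℝ Q := convex_pi (fun i _ => convex_Icc _ _)
  have hBQ : ⋂ n, B n = Q := by
    ext x
    simp only [hB, hQdef, mem_iInter, Set.mem_pi, mem_univ, true_implies, mem_Icc]
    constructor
    · intro h i
      have := h (i + 1) i (Nat.lt_succ_self i)
      exact abs_le.mp this
    · intro h n i _
      exact abs_le.mpr (h i)
  have hBclosed : ∀ n, IsClosed (B n) := by
    intro n
    have : B n = ⋂ i : ℕ, ⋂ _ : i < n, {x : ℕ → ℝ | |x i| ≤ M i} := by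
      ext x; simp [hB]
    rw [this]
    exact isClosed_iInter fun i => isClosed_iInter fun _ =>
      isClosed_le (by fun_prop) continuous_const
  have hBanti : Antitone B := by
    intro m n hmn x hx i hi
    exact hx i (lt_of_lt_of_le hi hmn)
  have htend : Tendsto (fun n => gamInf.real (B n)) atTop (𝓝 (gamInf.real Q)) := by
    have h1 : Tendsto (fun n => gamInf (B n)) atTop (𝓝 (gamInf (⋂ n, B n))) :=
      tendsto_measure_iInter_atTop (fun n => (hBclosed n).measurableSet.nullMeasurableSet)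
        hBanti ⟨0, measure_ne_top _ _⟩
    rw [hBQ] at h1
    exact (ENNReal.tendsto_toReal (measure_ne_top _ _)).comp h1
  choose C hC1 hC2 hC3 hC4 using hfin
  have hCsub : ∀ n, ∀ x : ℕ → ℝ, pr (n+1) x ∈ C n → ∃ s ∈ S, ∀ i < n + 1, s i = x i := by
    intro n x hx
    obtain ⟨s, hs, hsx⟩ := hC3 n hx
    exact ⟨s, hs, fun i hi => congrFun hsx ⟨i, hi⟩⟩
  set D : ℕ → Set (ℕ → ℝ) := fun n => Q ∩ pr (n+1) ⁻¹' (C n) with hD
  refine limit_set hQ D (fun n => inter_subset_left) (fun n => hQc.inter ?_) hS.isClosed ?_ ?_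
  · intro x hx y hy a b ha hb hab
    exact hC2 n hx hy ha hb hab
  · intro m
    filter_upwards [eventually_ge_atTop m] with n hn x hx
    obtain ⟨s, hs, hsx⟩ := hCsub n x hx.2
    exact ⟨s, hs, fun i hi => hsx i (by omega)⟩
  · intro η hη
    have h1 : ∀ᶠ n in atTop, gamInf.real (B (n + 1)) < gamInf.real Q + η / 2 := by
      have := (tendsto_add_atTop_iff_nat 1).mpr htend
      exact this.eventually_lt_const (by linarith)
    have h0 : ∀ᶠ n in atTop, δ - η / 2 < d n := hd.eventually_const_lt (by linarith)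
    filter_upwards [h1, h0] with n hn hn0
    have h2 : d n ≤ gamInf.real (pr (n+1) ⁻¹' C n) := by
      have := hC4 n
      rwa [← map_pr, map_measureReal_apply (pr_cont _).measurable
        (hC1 n).isClosed.measurableSet] at this
    have hQB : Q ⊆ B (n + 1) := by
      rw [← hBQ]; exact iInter_subset _ _
    have h3 : pr (n+1) ⁻¹' C n ⊆ D n ∪ (B (n+1) \ Q) := by
      intro x hx
      by_cases hxQ : x ∈ Q
      · exact Or.inl ⟨hxQ, hx⟩
      · refine Or.inr ⟨?_, hxQ⟩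
        intro i hi
        obtain ⟨s, hs, hsx⟩ := hCsub n x hx
        rw [← hsx i hi]
        exact hM i s hs
    have h4 : gamInf.real (B (n+1) \ Q) = gamInf.real (B (n+1)) - gamInf.real Q := by
      rw [measureReal_sdiff hQB hQ.isClosed.measurableSet]
    have h5 := (measureReal_mono h3 (μ := gamInf)).trans (measureReal_union_le _ _)
    linarith

/-- The set `K - (1/2) K - (1/2) K` in infinite dimension. -/
def S3i (K : Set (ℕ → ℝ)) : Set (ℕ → ℝ) :=
  (fun q : (ℕ → ℝ) × (ℕ → ℝ) × (ℕ → ℝ) => q.1 - (1/2:ℝ) • (q.2.1 + q.2.2)) ''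
    (K ×ˢ (K ×ˢ K))

lemma S3i_compact {K : Set (ℕ → ℝ)} (hK : IsCompact K) : IsCompact (S3i K) :=
  (hK.prod (hK.prod hK)).image (by fun_prop)

lemma S3_pr (n : ℕ) (K : Set (ℕ → ℝ)) : S3 (pr n '' K) ⊆ pr n '' S3i K := by
  rintro _ ⟨⟨_, _, _⟩, ⟨⟨a, ha, rfl⟩, ⟨b, hb, rfl⟩, ⟨c, hc, rfl⟩⟩, rfl⟩
  exact ⟨_, ⟨(a, b, c), ⟨ha, hb, hc⟩, rfl⟩, rfl⟩

/-- Every compact set of Gaussian measure at least `α > 2/3` is such that
`K - (1/2) K - (1/2) K` contains a compact convex set of Gaussian measure at least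
`1 - (1 - α) / (2 α - 1)`. -/
theorem infinite_dim {K : Set (ℕ → ℝ)} (hK : IsCompact K) {α : ℝ} (hα : 2 / 3 < α)
    (hKγ : α ≤ gamInf.real K) :
    ∃ C : Set (ℕ → ℝ), IsCompact C ∧ Convex ℝ C ∧ C ⊆ S3i K ∧
      1 - (1 - α) / (2 * α - 1) ≤ gamInf.real C := by
  set t₀ : ℝ := (1 - α) / (2 * α - 1) with ht₀
  have ht1 : t₀ < 1 := by
    rw [ht₀, div_lt_one (by linarith)]
    linarith
  set d : ℕ → ℝ := fun n => 1 - (t₀ + (1 - t₀) * (1 / ((n : ℝ) + 1))) with hd
  have hdt : Tendsto d atTop (𝓝 (1 - t₀)) := by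
    have h1 := (tendsto_one_div_add_atTop_nhds_zero_nat (𝕜 := ℝ)).const_mul (1 - t₀)
    have h2 := (h1.const_add t₀).const_sub 1
    rw [mul_zero, add_zero] at h2
    exact h2
  refine transfer (S3i_compact hK) hdt ?_
  intro n
  have hpos : (0:ℝ) < 1 / ((n : ℝ) + 1) := by positivity
  have hle : 1 / ((n : ℝ) + 1) ≤ 1 := by
    rw [div_le_one (by positivity)]
    have : (0:ℝ) ≤ n := by positivity
    linarith
  have hKn : α ≤ (gam (n + 1)).real (pr (n + 1) '' K) := by
    rw [← map_pr, map_measureReal_apply (pr_cont _).measurable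
      (hK.image (pr_cont _)).isClosed.measurableSet]
    exact hKγ.trans (measureReal_mono (subset_preimage_image _ _))
  obtain ⟨C, hC1, hC2, hC3, hC4⟩ := finite_dim (Nat.succ_pos n) (hK.image (pr_cont _))
    (α := α) (θ := t₀ + (1 - t₀) * (1 / ((n : ℝ) + 1))) (by linarith) hKn (by
      rw [← ht₀]
      have : 0 < (1 - t₀) * (1 / ((n : ℝ) + 1)) := mul_pos (by linarith) hpos
      linarith) (by
      have : (1 - t₀) * (1 / ((n : ℝ) + 1)) ≤ (1 - t₀) * 1 := by
        apply mul_le_mul_of_nonneg_left hle (by linarith)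
      linarith)
  exact ⟨C, hC1, hC2, hC3.trans (S3_pr _ _), hC4⟩

end Pool.Agent.TalK
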