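import Pool.Agent.TalK.Split
import Pool.Agent.Talagrand.Key

/-!
# The induction step with a constant arbitrarily close to one half
-/

set_option autoImplicit false

open MeasureTheory ProbabilityTheory Set
open scoped ENNReal NNReal

namespace Pool.Agent.TalK

open Pool.Agent.Talagrand

variable {n : ℕ} {R κ : ℝ} {φ : (Fin n → ℝ) → ℝ}

/-- The claim at level `κ` with error `err`. -/
def ClaimC (c₀ R : ℝ) (f g : (Fin n → ℝ) → ℝ) (κ err : ℝ) : Prop :=
  ∀ φ : (Fin n → ℝ) → ℝ, Dens R κ φ → ∀ z z' : Fin n → ℝ,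
    FF f (1 / κ) z + FF f (1 / κ) z' - 1 - err
      ≤ ∫ x, g (x - bary φ + c₀ • (z + z')) * φ x

lemma claim_step {c₀ : ℝ} {f g : (Fin n → ℝ) → ℝ} {T : ℝ} (hT0 : 0 ≤ T) (hT : Tay f T)
    (hf : Continuous f) {C : ℝ} (hC : ∀ x, |f x| ≤ C) (hg : Continuous g)
    {κ κ' r err : ℝ} (hκ : 0 < κ) (hκκ' : κ ≤ κ')
    (hsplit : ∀ φ : (Fin n → ℝ) → ℝ, Dens R κ φ → SplitC c₀ R κ κ' (1 / κ - 1 / κ') r φ)
    (hcl : ClaimC c₀ R f g κ' err) :
    ClaimC c₀ R f g κ (err + 2 * (T * (r ^ 3 + Real.sqrt (1 / κ - 1 / κ') ^ 3 * M3 n))) := by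
  intro φ hφ z z'
  obtain ⟨ι, hι, p, ψ, h, h', hp, hp1, hψ, hφψ, hbary, hm, hm'⟩ := (hsplit φ hφ).ex
  set v := 1 / κ - 1 / κ' with hv
  have hκ' : 0 < κ' := lt_of_lt_of_le hκ hκκ'
  have hv0 : 0 ≤ v := by
    have := one_div_le_one_div_of_le hκ hκκ'
    linarith
  have hav : 1 / κ' + v = 1 / κ := by rw [hv]; ring
  have e1 : ∫ x, g (x - bary φ + c₀ • (z + z')) * φ x
      = ∑ j, p j * ∫ x, g (x - bary (ψ j) + c₀ • ((z + h j) + (z' + h' j))) * ψ j x := by
    have a1 : ∀ x, g (x - bary φ + c₀ • (z + z')) * φ x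
        = ∑ j, p j * (g (x - bary (ψ j) + c₀ • ((z + h j) + (z' + h' j))) * ψ j x) := by
      intro x
      rw [hφψ x, Finset.mul_sum]
      refine Finset.sum_congr rfl (fun j _ => ?_)
      have : x - bary (ψ j) + c₀ • ((z + h j) + (z' + h' j))
          = x - bary φ + c₀ • (z + z') := by
        have hb := hbary j
        have : c₀ • ((z + h j) + (z' + h' j)) = c₀ • (z + z') + c₀ • (h j + h' j) := by
          rw [← smul_add]; congr 1; abel
        rw [this, hb]; abel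
      rw [this]; ring
    simp only [a1]
    rw [integral_finsetSum]
    · simp only [integral_const_mul]
    · intro j _
      exact ((hψ j).integrable_mul_cont
        (F := fun x => g (x - bary (ψ j) + c₀ • ((z + h j) + (z' + h' j))))
        (by fun_prop)).const_mul _
  rw [e1]
  have h1 : ∑ j, p j * (FF f (1 / κ') (z + h j) + FF f (1 / κ') (z' + h' j) - 1 - err)
      ≤ ∑ j, p j * ∫ x, g (x - bary (ψ j) + c₀ • ((z + h j) + (z' + h' j))) * ψ j x := by
    apply Finset.sum_le_sum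
    intro j _
    apply mul_le_mul_of_nonneg_left _ (hp j)
    exact hcl (ψ j) (hψ j) (z + h j) (z' + h' j)
  refine le_trans ?_ h1
  have e2 : ∑ j, p j * (FF f (1 / κ') (z + h j) + FF f (1 / κ') (z' + h' j) - 1 - err)
      = (∑ j, p j * FF f (1 / κ') (z + h j)) + (∑ j, p j * FF f (1 / κ') (z' + h' j)) - 1 - err := by
    simp only [mul_add, mul_sub, Finset.sum_add_distrib, Finset.sum_sub_distrib]
    rw [← Finset.sum_mul, ← Finset.sum_mul, hp1]
    ring
  rw [e2]
  have h2 := FF_step hT0 hT hf hC (a := 1 / κ') (by positivity) hv0 hp hp1 hm z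
  have h3 := FF_step hT0 hT hf hC (a := 1 / κ') (by positivity) hv0 hp hp1 hm' z'
  rw [hav] at h2 h3
  linarith

end Pool.Agent.TalK
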