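import Pool.Agent.TalK.Induct

/-!
# The key inequality with a constant arbitrarily close to one half
-/

set_option autoImplicit false

open MeasureTheory ProbabilityTheory Set
open scoped ENNReal NNReal

namespace Pool.Agent.TalK

open Pool.Agent.Talagrand

variable {n : ℕ} {R κ : ℝ} {φ : (Fin n → ℝ) → ℝ}

lemma pow_five_le {η : ℝ} (h0 : 0 ≤ η) (h1 : η ≤ 1) : (1 + η) ^ 5 ≤ 1 + 31 * η := by
  have h2 : η ^ 2 ≤ η := by nlinarith
  have h3 : η ^ 3 ≤ η := by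
    calc η ^ 3 = η * η ^ 2 := by ring
      _ ≤ η * 1 := by
          gcongr
          linarith
      _ = η := mul_one _
  have h4 : η ^ 4 ≤ η := by
    calc η ^ 4 = η * η ^ 3 := by ring
      _ ≤ η * 1 := by
          gcongr
          linarith
      _ = η := mul_one _
  have h5 : η ^ 5 ≤ η := by
    calc η ^ 5 = η * η ^ 4 := by ring
      _ ≤ η * 1 := by
          gcongr
          linarith
      _ = η := mul_one _
  have e : (1 + η) ^ 5 = 1 + 5 * η + 10 * η ^ 2 + 10 * η ^ 3 + 5 * η ^ 4 + η ^ 5 := by ring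
  rw [e]; linarith

lemma exists_split (n : ℕ) (hn : 0 < n) (c₀ R κm : ℝ) (hc₀ : 1 / 2 < c₀) (hR : 0 ≤ R)
    (hκm : 1 ≤ κm) :
    ∃ θ : ℝ, 0 < θ ∧ θ ≤ 1 ∧
    ∃ ε₀ : ℝ, 0 < ε₀ ∧ ε₀ ≤ 1 ∧ ∃ C : ℝ, 0 ≤ C ∧ ∀ ε, 0 < ε → ε ≤ ε₀ → ∀ κ, 1 ≤ κ → κ ≤ κm →
      ∀ φ : (Fin n → ℝ) → ℝ, Dens R κ φ →
        SplitC c₀ R κ (κ + θ * ε ^ 2) (1 / κ - 1 / (κ + θ * ε ^ 2)) (C * ε) φ := by
  obtain ⟨η, hη0, hη1, hη⟩ : ∃ η : ℝ, 0 < η ∧ η ≤ 1 ∧ (1 + η) ^ 5 ≤ 4 * c₀ ^ 2 := by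
    have h4 : 0 < 4 * c₀ ^ 2 - 1 := by nlinarith
    refine ⟨min 1 ((4 * c₀ ^ 2 - 1) / 31), lt_min one_pos (by positivity), min_le_left _ _, ?_⟩
    refine (pow_five_le (le_min zero_le_one (by positivity)) (min_le_left _ _)).trans ?_
    have : min 1 ((4 * c₀ ^ 2 - 1) / 31) ≤ (4 * c₀ ^ 2 - 1) / 31 := min_le_right _ _
    linarith
  have h1η : 0 < 1 + η := by linarith
  set θ : ℝ := 1 / (1 + η) with hθ
  have hθ0 : 0 < θ := by positivity
  have hθ1 : θ ≤ 1 := by rw [hθ, div_le_one h1η]; linarith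
  have hθη : θ * (1 + η) = 1 := by rw [hθ]; field_simp
  refine ⟨θ, hθ0, hθ1, ?_⟩
  set K₀ : ℝ := n ^ 2 * 2 ^ n * (4 * R ^ 2) with hK₀
  have hK₀0 : 0 ≤ K₀ := by positivity
  set E : ℝ := (1 + η) * (1 + 1 / η) * (4 * R ^ 2 * n * K₀ ^ 2) * κm ^ 2 with hE
  have hE0 : 0 ≤ E := by positivity
  set M : ℝ := 1 / η + 20 * R + 14 * R / η + 3 * K₀ + 2 * K₀ / η + E / η with hM
  have hp1 : 0 < 1 / η := by positivity
  have hp2 : 0 ≤ 14 * R / η := by positivity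
  have hp3 : 0 ≤ 2 * K₀ / η := by positivity
  have hp4 : 0 ≤ E / η := by positivity
  have hM1 : 1 / η ≤ M := by rw [hM]; linarith
  have hη' : 1 ≤ 1 / η := by rw [le_div_iff₀ hη0]; linarith
  have hM0 : 0 < M := by linarith
  refine ⟨1 / M, by positivity, by rw [div_le_one hM0]; linarith,
    8 * R ^ 2 * (n * 2 ^ n) + n, by positivity, ?_⟩
  intro ε hε hεM κ hκ1 hκm' φ hφ
  have hεM' : ε * M ≤ 1 := by rwa [le_div_iff₀ hM0] at hεM
  have hpart : ∀ t : ℝ, 0 ≤ t → t ≤ M → ε * t ≤ 1 := by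
    intro t _ htM
    exact (mul_le_mul_of_nonneg_left htM hε.le).trans hεM'
  have hεη : ε ≤ η := by
    have := hpart (1 / η) hp1.le hM1
    rw [mul_one_div, div_le_one hη0] at this
    exact this
  have hε1 : ε ≤ 1 := hεη.trans hη1
  have hκ0 : 0 < κ := by linarith
  have hεR : 2 * R * ε ≤ 1 / 10 := by
    have := hpart (20 * R) (by positivity) (by rw [hM]; linarith)
    linarith
  have hθR : θ * (1 + 7 * (2 * R * ε)) ≤ 1 := by
    have h1 := hpart (14 * R / η) hp2 (by rw [hM]; linarith)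
    have h2 : 14 * R * ε ≤ η := by
      rw [mul_div_assoc', div_le_one hη0] at h1
      linarith
    calc θ * (1 + 7 * (2 * R * ε)) = θ * (1 + 14 * R * ε) := by ring
      _ ≤ θ * (1 + η) := by gcongr
      _ = 1 := hθη
  have hKK : KK n R ε = K₀ * ε ^ 2 := by unfold KK; rw [hK₀]; ring
  have hε2 : ε ^ 2 ≤ ε := by nlinarith
  have hK : KK n R ε ≤ 1 / 3 := by
    rw [hKK]
    have := hpart (3 * K₀) (by positivity) (by rw [hM]; linarith)
    have h2 : K₀ * ε ^ 2 ≤ K₀ * ε := by gcongr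
    linarith
  have hKη : (1 + η) * KK n R ε ≤ η := by
    rw [hKK]
    have h1 := hpart (2 * K₀ / η) hp3 (by rw [hM]; linarith)
    rw [mul_div_assoc', div_le_one hη0] at h1
    calc (1 + η) * (K₀ * ε ^ 2) ≤ 2 * (K₀ * ε) := by
          gcongr
          linarith
      _ ≤ η := by linarith
  have hεsq : 0 < ε ^ 2 := by positivity
  have hδ0 : 0 < θ * ε ^ 2 := by positivity
  have ev : 1 / κ - 1 / (κ + θ * ε ^ 2) = (θ * ε ^ 2) / (κ * (κ + θ * ε ^ 2)) := by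
    field_simp
    ring
  apply split_aux hφ hn hκ0 hc₀.le hε.le hεR hK hη0 hKη hθ0.le hθR
  · have hv : ε ^ 2 / κ ^ 2 / (1 + η) ^ 2 ≤ 1 / κ - 1 / (κ + θ * ε ^ 2) := by
      rw [ev, div_div, div_le_div_iff₀ (by positivity) (by positivity)]
      have h1 : θ * ε ^ 2 ≤ η * κ := by
        calc θ * ε ^ 2 ≤ 1 * ε := by gcongr
          _ = ε * 1 := by ring
          _ ≤ η * κ := by gcongr
      have h2 : κ + θ * ε ^ 2 ≤ (1 + η) * κ := by linarith
      calc ε ^ 2 * (κ * (κ + θ * ε ^ 2)) ≤ ε ^ 2 * (κ * ((1 + η) * κ)) := by gcongr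
        _ = (1 * ε ^ 2) * (κ ^ 2 * (1 + η)) := by ring
        _ = ((θ * (1 + η)) * ε ^ 2) * (κ ^ 2 * (1 + η)) := by rw [hθη]
        _ = θ * ε ^ 2 * (κ ^ 2 * (1 + η) ^ 2) := by ring
    have h1 : (1 + η) * (1 + 1 / η) * (4 * R ^ 2 * n * KK n R ε ^ 2) ≤ η * (ε ^ 2 / κ ^ 2) := by
      rw [hKK, mul_div_assoc', le_div_iff₀ (by positivity)]
      have h2 := hpart (E / η) hp4 (by rw [hM]; linarith)
      rw [mul_div_assoc', div_le_one hη0] at h2
      have h3 : κ ^ 2 ≤ κm ^ 2 := by gcongr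
      calc (1 + η) * (1 + 1 / η) * (4 * R ^ 2 * n * (K₀ * ε ^ 2) ^ 2) * κ ^ 2
          = ((1 + η) * (1 + 1 / η) * (4 * R ^ 2 * n * K₀ ^ 2) * κ ^ 2) * (ε ^ 2 * ε ^ 2) := by ring
        _ ≤ ((1 + η) * (1 + 1 / η) * (4 * R ^ 2 * n * K₀ ^ 2) * κm ^ 2) * (ε ^ 2 * ε) := by
            gcongr
        _ = (ε * E) * ε ^ 2 := by rw [hE]; ring
        _ ≤ η * ε ^ 2 := by gcongr
    have hx0 : 0 ≤ ε ^ 2 / κ ^ 2 := by positivity
    have h5 : (1 + η) ^ 2 + η ≤ (1 + η) ^ 3 := by nlinarith [sq_nonneg η]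
    calc (1 + η) ^ 2 * ε ^ 2 / κ ^ 2
          + (1 + η) * (1 + 1 / η) * (4 * R ^ 2 * n * KK n R ε ^ 2)
        ≤ (1 + η) ^ 2 * ε ^ 2 / κ ^ 2 + η * (ε ^ 2 / κ ^ 2) := by gcongr
      _ = ((1 + η) ^ 2 + η) * (ε ^ 2 / κ ^ 2) := by ring
      _ ≤ (1 + η) ^ 3 * (ε ^ 2 / κ ^ 2) := by gcongr
      _ = (1 + η) ^ 5 * (ε ^ 2 / κ ^ 2 / (1 + η) ^ 2) := by field_simp
      _ ≤ (4 * c₀ ^ 2) * (1 / κ - 1 / (κ + θ * ε ^ 2)) := by gcongr
  · rw [ev, div_le_iff₀ (by positivity)]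
    have h1 : 1 ≤ κ * (κ + θ * ε ^ 2) := by nlinarith
    calc θ * ε ^ 2 ≤ 1 * ε ^ 2 := by gcongr
      _ = ε ^ 2 * 1 := by ring
      _ ≤ ε ^ 2 * (κ * (κ + θ * ε ^ 2)) := by gcongr

lemma claim_terminal (c₀ R : ℝ) {f g : (Fin n → ℝ) → ℝ} {Lf Lg : ℝ≥0} (hfL : LipschitzWith Lf f)
    (hgL : LipschitzWith Lg g) {C : ℝ} (hC : ∀ x, |f x| ≤ C)
    (hfg : ∀ z z', f z + f z' - 1 ≤ g (c₀ • (z + z'))) {κ : ℝ} (hκ : 1 ≤ κ) :
    ClaimC c₀ R f g κ ((Lg * (1 + 2 * n) + 2 * (Lf * M1 n)) / Real.sqrt κ) := by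
  intro φ hφ z z'
  have hκ0 : 0 < κ := by linarith
  set s := Real.sqrt κ with hs
  have hs0 : 0 < s := Real.sqrt_pos.mpr hκ0
  have hss : s * s = κ := Real.mul_self_sqrt hκ0.le
  have hsinv : Real.sqrt (1 / κ) = 1 / s := by
    rw [hs, Real.sqrt_div zero_le_one, Real.sqrt_one]
  set c : Fin n → ℝ := c₀ • (z + z') with hc
  have hgc := hgL.continuous
  have hd1 : ∫ x, ‖x - bary φ‖ * φ x ≤ (1 + 2 * n) / s := by
    have i0 : Integrable (fun x => ‖x - bary φ‖ * φ x) := hφ.integrable_mul_cont (by fun_prop)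
    have i2 : ∀ k : Fin n, Integrable (fun x : Fin n → ℝ => (x k - bary φ k) ^ 2 * φ x) :=
      fun k => hφ.integrable_mul_cont (by fun_prop)
    have hk : ∀ k : Fin n, ∫ x, (x k - bary φ k) ^ 2 * φ x ≤ 2 / κ := by
      intro k
      have h := hφ.cov_le hκ0 (Pi.single k 1)
      have e1 : ∀ x : Fin n → ℝ, ∑ i, (Pi.single k (1:ℝ) : Fin n → ℝ) i * (x i - bary φ i)
          = x k - bary φ k := by
        intro x
        simp [Pi.single_apply]
      have e2 : ∑ i, (Pi.single k (1:ℝ) : Fin n → ℝ) i ^ 2 = 1 := by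
        simp [Pi.single_apply]
      simp only [e1, e2, mul_one] at h
      exact h
    have hpt : ∀ x : Fin n → ℝ, ‖x - bary φ‖ * φ x
        ≤ (1 / s) * φ x + s * ∑ k, (x k - bary φ k) ^ 2 * φ x := by
      intro x
      have hx := hφ.nn x
      rw [← Finset.sum_mul, ← mul_assoc, ← add_mul]
      apply mul_le_mul_of_nonneg_right _ hx
      set t := ‖x - bary φ‖ with ht
      have ht0 : 0 ≤ t := norm_nonneg _
      have hsum : t ^ 2 ≤ ∑ k, (x k - bary φ k) ^ 2 := by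
        by_cases hn : Nonempty (Fin n)
        · obtain ⟨k, -, hk⟩ := Finset.exists_max_image Finset.univ
            (fun k => ‖(x - bary φ) k‖) Finset.univ_nonempty
          have : t ≤ ‖(x - bary φ) k‖ :=
            (pi_norm_le_iff_of_nonneg (norm_nonneg _)).mpr (fun i => hk i (Finset.mem_univ i))
          calc t ^ 2 ≤ ‖(x - bary φ) k‖ ^ 2 := by gcongr
            _ = (x k - bary φ k) ^ 2 := by
              rw [Real.norm_eq_abs, sq_abs]; rfl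
            _ ≤ _ := Finset.single_le_sum (f := fun k => (x k - bary φ k) ^ 2)
              (fun i _ => sq_nonneg _) (Finset.mem_univ k)
        · have : t = 0 := by
            rw [ht, norm_eq_zero]
            funext k
            exact absurd ⟨k⟩ hn
          rw [this]
          simp only [ne_eq, OfNat.ofNat_ne_zero, not_false_eq_true, zero_pow]
          exact Finset.sum_nonneg (fun k _ => sq_nonneg _)
      have h1 : t ≤ 1 / s + s * t ^ 2 := by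
        have e : 1 / s + s * t ^ 2 - t = (1 / s) * ((s * t - 1 / 2) ^ 2 + 3 / 4) := by
          field_simp
          ring
        have : 0 ≤ (1 / s) * ((s * t - 1 / 2) ^ 2 + 3 / 4) := by positivity
        linarith
      have h2 : s * t ^ 2 ≤ s * ∑ k, (x k - bary φ k) ^ 2 := by gcongr
      linarith
    have h3 := integral_mono i0 ((hφ.int.const_mul (1 / s)).add
      ((integrable_finsetSum _ (fun k _ => i2 k)).const_mul s)) hpt
    rw [integral_add' (hφ.int.const_mul (1 / s))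
      ((integrable_finsetSum _ (fun k _ => i2 k)).const_mul s), integral_const_mul,
      integral_const_mul, hφ.one, integral_finsetSum _ (fun k _ => i2 k)] at h3
    refine h3.trans ?_
    have h4 : ∑ k : Fin n, ∫ x, (x k - bary φ k) ^ 2 * φ x ≤ n * (2 / κ) := by
      calc ∑ k : Fin n, ∫ x, (x k - bary φ k) ^ 2 * φ x ≤ ∑ k : Fin n, 2 / κ :=
            Finset.sum_le_sum (fun k _ => hk k)
        _ = _ := by simp
    calc 1 / s * 1 + s * ∑ k : Fin n, ∫ x, (x k - bary φ k) ^ 2 * φ x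
        ≤ 1 / s * 1 + s * (n * (2 / κ)) := by gcongr
      _ = (1 + 2 * n) / s := by
        rw [← hss]
        field_simp
  have hlow : g c - Lg * ((1 + 2 * n) / s) ≤ ∫ x, g (x - bary φ + c) * φ x := by
    have i0 : Integrable (fun x => ‖x - bary φ‖ * φ x) := hφ.integrable_mul_cont (by fun_prop)
    have i1 : Integrable (fun x => g (x - bary φ + c) * φ x) :=
      hφ.integrable_mul_cont (by fun_prop)
    have hpt : ∀ x : Fin n → ℝ, g c * φ x - Lg * (‖x - bary φ‖ * φ x)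
        ≤ g (x - bary φ + c) * φ x := by
      intro x
      have hx := hφ.nn x
      rw [← mul_assoc, ← sub_mul]
      apply mul_le_mul_of_nonneg_right _ hx
      have h := hgL.dist_le_mul (x - bary φ + c) c
      rw [Real.dist_eq, dist_eq_norm, add_sub_cancel_right] at h
      have := (abs_le.mp h).1
      linarith
    have h3 := integral_mono ((hφ.int.const_mul (g c)).sub (i0.const_mul (Lg : ℝ))) i1 hpt
    rw [integral_sub' (hφ.int.const_mul (g c)) (i0.const_mul (Lg : ℝ)), integral_const_mul,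
      integral_const_mul, hφ.one, mul_one] at h3
    refine le_trans ?_ h3
    have : (Lg : ℝ) * ∫ x, ‖x - bary φ‖ * φ x ≤ Lg * ((1 + 2 * n) / s) := by gcongr
    linarith
  have h1 := FF_le hfL hC (1 / κ) z
  have h2 := FF_le hfL hC (1 / κ) z'
  rw [hsinv] at h1 h2
  have h3 := hfg z z'
  have e : ((Lg : ℝ) * (1 + 2 * n) + 2 * (Lf * M1 n)) / s
      = Lg * ((1 + 2 * n) / s) + 2 * (Lf * (1 / s) * M1 n) := by
    field_simp
  rw [e]
  linarith

/-- The downward induction. -/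
lemma claim_induct {c₀ θ : ℝ} (hθ0 : 0 < θ) (hθ1 : θ ≤ 1) {f g : (Fin n → ℝ) → ℝ} {C T : ℝ} (hfc : Continuous f) (hgc : Continuous g)
    (hC : ∀ x, |f x| ≤ C) (hT0 : 0 ≤ T) (hT : Tay f T) {κs ε D e₀ : ℝ} (hε : 0 < ε)
    (hε1 : ε ≤ 1)
    (hκs : ∀ κ, κs ≤ κ → ClaimC c₀ R f g κ e₀)
    (hsplit : ∀ κ, 1 ≤ κ → κ ≤ κs + 1 → ∀ φ : (Fin n → ℝ) → ℝ, Dens R κ φ →
        SplitC c₀ R κ (κ + θ * ε ^ 2) (1 / κ - 1 / (κ + θ * ε ^ 2)) (D * ε) φ)
    {N : ℕ} (hN1 : κs ≤ 1 + N * (θ * ε ^ 2))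
    (hN2 : (N:ℝ) * (θ * ε ^ 2) ≤ κs - 1 + θ * ε ^ 2) :
    ∀ i : ℕ, i ≤ N → ClaimC c₀ R f g (1 + ((N - i : ℕ) : ℝ) * (θ * ε ^ 2))
      (e₀ + i * (2 * (T * (D ^ 3 + M3 n)) * ε ^ 3)) := by
  intro i
  induction i with
  | zero =>
    intro _
    have := hκs (1 + N * (θ * ε ^ 2)) hN1
    simpa using this
  | succ i ih =>
    intro hi
    have ih' := ih (by omega)
    have e1 : N - i = (N - (i + 1)) + 1 := by omega
    set m : ℕ := N - (i + 1) with hm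
    set δ : ℝ := θ * ε ^ 2 with hδ
    have hδ0 : 0 < δ := by positivity
    have hmN : (m : ℝ) + 1 ≤ N := by
      have : m + 1 ≤ N := by omega
      exact_mod_cast this
    have e2 : (1 : ℝ) + ((N - i : ℕ) : ℝ) * δ = (1 + (m : ℝ) * δ) + δ := by
      rw [e1]; push_cast; ring
    rw [e2] at ih'
    have hκ1 : (1:ℝ) ≤ 1 + (m : ℝ) * δ := by
      have : 0 ≤ (m:ℝ) * δ := by positivity
      linarith
    have hκm' : 1 + (m : ℝ) * δ ≤ κs + 1 := by
      have : (m:ℝ) * δ + δ ≤ N * δ := by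
        calc (m:ℝ) * δ + δ = ((m:ℝ) + 1) * δ := by ring
          _ ≤ N * δ := by gcongr
      linarith
    have hst := claim_step (R := R) hT0 hT hfc hC hgc (κ := 1 + (m : ℝ) * δ)
      (κ' := (1 + (m : ℝ) * δ) + δ) (r := D * ε) (by linarith) (by linarith)
      (hsplit _ hκ1 hκm') ih'
    intro ψ hψ z z'
    have h5 := hst ψ hψ z z'
    set v := 1 / (1 + (m : ℝ) * δ) - 1 / (1 + (m : ℝ) * δ + δ) with hv
    have hvε : Real.sqrt v ≤ ε := by
      rw [Real.sqrt_le_left hε.le]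
      have hp1 : (0:ℝ) < 1 + (m : ℝ) * δ := by linarith
      have hp2 : (0:ℝ) < 1 + (m : ℝ) * δ + δ := by linarith
      have e : v = δ / ((1 + (m : ℝ) * δ) * (1 + (m : ℝ) * δ + δ)) := by
        rw [hv]; field_simp; ring
      rw [e, div_le_iff₀ (by positivity)]
      have h6 : 1 ≤ (1 + (m : ℝ) * δ) * (1 + (m : ℝ) * δ + δ) := by nlinarith
      have h7 : δ ≤ ε ^ 2 := by rw [hδ]; nlinarith [sq_nonneg ε]
      nlinarith [sq_nonneg ε]
    have h8 : 2 * (T * ((D * ε) ^ 3 + Real.sqrt v ^ 3 * M3 n))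
        ≤ 2 * (T * (D ^ 3 + M3 n)) * ε ^ 3 := by
      have hM3 := M3_nonneg n
      have hsv : 0 ≤ Real.sqrt v := Real.sqrt_nonneg _
      calc 2 * (T * ((D * ε) ^ 3 + Real.sqrt v ^ 3 * M3 n))
          ≤ 2 * (T * ((D * ε) ^ 3 + ε ^ 3 * M3 n)) := by gcongr
        _ = 2 * (T * (D ^ 3 + M3 n)) * ε ^ 3 := by ring
    push_cast
    linarith

/-- **Key inequality**. -/
theorem key (hn : 0 < n) {c₀ : ℝ} (hc₀ : 1 / 2 < c₀) {f g : (Fin n → ℝ) → ℝ} {Lf Lg : ℝ≥0}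
    (hfL : LipschitzWith Lf f) (hgL : LipschitzWith Lg g) {C T : ℝ} (hC : ∀ x, |f x| ≤ C)
    (hT0 : 0 ≤ T) (hT : Tay f T)
    (hfg : ∀ z z', f z + f z' - 1 ≤ g (c₀ • (z + z')))
    (hφ : Dens R 1 φ) :
    2 * (∫ y, f y ∂(gam n)) - 1 ≤ ∫ x, g (x - bary φ) * φ x := by
  apply le_of_forall_pos_le_add
  intro η hη
  have hR := hφ.R_nonneg
  have hfc := hfL.continuous
  have hgc := hgL.continuous
  set A : ℝ := Lg * (1 + 2 * n) + 2 * (Lf * M1 n) with hA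
  have hA0 : 0 ≤ A := by have := M1_nonneg n; positivity
  -- choice of the final level
  obtain ⟨κs, hκs1, hκs⟩ : ∃ κs : ℝ, 1 ≤ κs ∧ ∀ κ, κs ≤ κ → ClaimC c₀ R f g κ (η / 2) := by
    refine ⟨max 1 ((2 * A / η) ^ 2), le_max_left _ _, ?_⟩
    intro κ hκ
    have hκ1 : 1 ≤ κ := (le_max_left _ _).trans hκ
    have hκ2 : (2 * A / η) ^ 2 ≤ κ := (le_max_right _ _).trans hκ
    have h1 := claim_terminal c₀ R hfL hgL hC hfg hκ1
    intro ψ hψ z z'
    have h2 := h1 ψ hψ z z'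
    have h3 : A / Real.sqrt κ ≤ η / 2 := by
      have hs : 2 * A / η ≤ Real.sqrt κ := by
        apply Real.le_sqrt_of_sq_le hκ2
      have hs0 : 0 < Real.sqrt κ := Real.sqrt_pos.mpr (by linarith)
      rw [div_le_iff₀ hs0]
      rw [div_le_iff₀ hη] at hs
      linarith
    linarith
  obtain ⟨θ, hθ0, hθ1, ε₀, hε₀, hε₀1, D, hD, hsplit⟩ :=
    exists_split n hn c₀ R (κs + 1) hc₀ hR (by linarith)
  set B : ℝ := 2 * (T * (D ^ 3 + M3 n)) with hB
  have hB0 : 0 ≤ B := by have := M3_nonneg n; positivity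
  -- choice of the step
  set W : ℝ := (κs + 1) / θ with hW
  have hW0 : 0 < W := by positivity
  obtain ⟨ε, hε, hεε₀, hεη⟩ : ∃ ε : ℝ, 0 < ε ∧ ε ≤ ε₀ ∧ W * B * ε ≤ η / 2 := by
    refine ⟨min ε₀ (η / (2 * W * B + 1)), ?_, min_le_left _ _, ?_⟩
    · apply lt_min hε₀
      positivity
    · have h1 : min ε₀ (η / (2 * W * B + 1)) ≤ η / (2 * W * B + 1) :=
        min_le_right _ _
      have h2 : 0 ≤ W * B := by positivity
      calc W * B * min ε₀ (η / (2 * W * B + 1))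
          ≤ W * B * (η / (2 * W * B + 1)) := by gcongr
        _ ≤ η / 2 := by
          rw [mul_div_assoc', div_le_div_iff₀ (by positivity) (by norm_num)]
          nlinarith
  have hε1 : ε ≤ 1 := hεε₀.trans hε₀1
  have hδ0 : 0 < θ * ε ^ 2 := by positivity
  set N : ℕ := ⌈(κs - 1) / (θ * ε ^ 2)⌉₊ with hN
  have hN1 : κs ≤ 1 + N * (θ * ε ^ 2) := by
    have := Nat.le_ceil ((κs - 1) / (θ * ε ^ 2))
    rw [← hN, div_le_iff₀ hδ0] at this
    linarith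
  have hN2 : (N:ℝ) * (θ * ε ^ 2) ≤ κs - 1 + (θ * ε ^ 2) := by
    have := Nat.ceil_lt_add_one (a := (κs - 1) / (θ * ε ^ 2)) (by apply div_nonneg <;> linarith)
    rw [← hN] at this
    have h2 : (N:ℝ) * (θ * ε ^ 2) ≤ ((κs - 1) / (θ * ε ^ 2) + 1) * (θ * ε ^ 2) := by gcongr
    rw [add_mul, div_mul_cancel₀ _ hδ0.ne', one_mul] at h2
    exact h2
  have hfin := claim_induct hθ0 hθ1 hfc hgc hC hT0 hT hε hε1 hκs (hsplit ε hε hεε₀) hN1 hN2 N le_rfl
  simp only [Nat.sub_self, Nat.cast_zero, zero_mul, add_zero] at hfin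
  have hφ' := hfin φ hφ 0 0
  simp only [add_zero, smul_zero, div_one] at hφ'
  have eFF : FF f 1 0 = ∫ y, f y ∂(gam n) := by
    unfold FF
    simp
  rw [eFF] at hφ'
  have herr : (N:ℝ) * (B * ε ^ 3) ≤ η / 2 := by
    have h1 : (N:ℝ) * ε ^ 2 ≤ W := by
      have h2 : θ * ε ^ 2 ≤ 1 := by
        calc θ * ε ^ 2 ≤ 1 * 1 ^ 2 := by gcongr
          _ = 1 := by norm_num
      rw [hW, le_div_iff₀ hθ0]
      linarith
    calc (N:ℝ) * (B * ε ^ 3) = ((N:ℝ) * ε ^ 2) * (B * ε) := by ring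
      _ ≤ W * (B * ε) := by gcongr
      _ = W * B * ε := by ring
      _ ≤ η / 2 := hεη
  rw [hB] at herr
  linarith

end Pool.Agent.TalK
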