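import Pool.Agent.TalK.Shift
import Pool.Agent.Lib.PrekopaLeindler

/-!
# Sets of arbitrarily small positive Gaussian measure
-/

set_option autoImplicit false

open MeasureTheory ProbabilityTheory Set Metric Filter Topology
open scoped ENNReal NNReal Pointwise

namespace Pool.Agent.TalK

open Pool.Agent.Talagrand

/-- The `q`-fold Minkowski sum. -/
def sumset {E : Type*} [AddCommMonoid E] (q : ℕ) (K : Set E) : Set E :=
  {x | ∃ y : Fin q → E, (∀ i, y i ∈ K) ∧ x = ∑ i, y i}

section sumset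

variable {E : Type*} [AddCommGroup E]

lemma sumset_add {K : Set E} {p q : ℕ} {a b : E} (ha : a ∈ sumset p K) (hb : b ∈ sumset q K) :
    a + b ∈ sumset (p + q) K := by
  obtain ⟨y, hy, rfl⟩ := ha
  obtain ⟨z, hz, rfl⟩ := hb
  refine ⟨Fin.append y z, ?_, ?_⟩
  · intro i
    refine Fin.addCases (fun j => ?_) (fun j => ?_) i
    · rw [Fin.append_left]; exact hy j
    · rw [Fin.append_right]; exact hz j
  · rw [Fin.sum_univ_add]
    simp

lemma sumset_one {K : Set E} {a : E} (ha : a ∈ K) : a ∈ sumset 1 K :=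
  ⟨fun _ => a, fun _ => ha, by simp⟩

lemma sumset_zero_mem {K : Set E} : (0 : E) ∈ sumset 0 K := ⟨fun _ => 0, fun i => i.elim0, by simp⟩

lemma sumset_nsmul {K : Set E} {p : ℕ} {a : E} (ha : a ∈ sumset p K) (m : ℕ) :
    m • a ∈ sumset (p * m) K := by
  induction m with
  | zero => simpa using sumset_zero_mem
  | succ m ih =>
    rw [succ_nsmul, Nat.mul_succ]
    exact sumset_add ih ha

variable [Module ℝ E]

lemma sumset_smul {K : Set E} (hbal : Balanced ℝ K) {q : ℕ} {a : E} (ha : a ∈ sumset q K) {c : ℝ}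
    (hc : |c| ≤ 1) : c • a ∈ sumset q K := by
  obtain ⟨y, hy, rfl⟩ := ha
  refine ⟨fun i => c • y i, fun i => hbal.smul_mem (by rwa [Real.norm_eq_abs]) (hy i), ?_⟩
  rw [Finset.smul_sum]

end sumset

lemma sumset_compact {E : Type*} [AddCommGroup E] [TopologicalSpace E] [IsTopologicalAddGroup E]
    {K : Set E} (hK : IsCompact K) (q : ℕ) : IsCompact (sumset q K) := by
  have e : sumset q K = (fun y : Fin q → E => ∑ i, y i) '' (Set.pi univ fun _ => K) := by
    ext x
    constructor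
    · rintro ⟨y, hy, rfl⟩
      exact ⟨y, fun i _ => hy i, rfl⟩
    · rintro ⟨y, hy, rfl⟩
      exact ⟨y, fun i => hy i (mem_univ i), rfl⟩
  rw [e]
  exact (isCompact_univ_pi (fun _ => hK)).image (by fun_prop)

variable {n : ℕ}

/-- Concentration of the Gaussian measure. -/
lemma conc {A B : Set (Fin n → ℝ)} (hA : MeasurableSet A) (hB : MeasurableSet B) {t : ℝ}
    (hAB : ∀ x ∈ A, ∀ y ∈ B, t ≤ ∑ i, (x i - y i) ^ 2) :
    (gam n).real A * (gam n).real B ≤ Real.exp (-(t / 4)) := by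
  have hGm : Measurable (fun x : Fin n → ℝ => ENNReal.ofReal (G0 x)) :=
    G0_cont.measurable.ennreal_ofReal
  have hPL := Lib.PL.prekopa_leindler n
    (f := A.indicator (fun x => ENNReal.ofReal (G0 x)))
    (g := B.indicator (fun x => ENNReal.ofReal (G0 x)))
    (h := fun x => ENNReal.ofReal (Real.exp (-(t / 8))) * ENNReal.ofReal (G0 x))
    (hGm.indicator hA) (hGm.indicator hB) (hGm.const_mul _)
    (by
      intro x y
      by_cases hx : x ∈ A
      · by_cases hy : y ∈ B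
        · rw [indicator_of_mem hx, indicator_of_mem hy,
            ← ENNReal.ofReal_mul (G0_pos _).le, ← ENNReal.ofReal_mul (Real.exp_pos _).le,
            ← ENNReal.ofReal_pow (mul_nonneg (Real.exp_pos _).le (G0_pos _).le)]
          apply ENNReal.ofReal_le_ofReal
          rw [mul_pow, ← G0_lc x y, ← Real.exp_nat_mul]
          have h1 := hAB x hx y hy
          have h2 : (1 : ℝ) ≤ Real.exp ((2 : ℕ) * -(t / 8))
              * Real.exp (1 / 4 * ∑ i, (x i - y i) ^ 2) := by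
            rw [← Real.exp_add, Real.one_le_exp_iff]
            push_cast
            linarith
          have h3 := mul_pos (G0_pos x) (G0_pos y)
          nlinarith
        · rw [indicator_of_notMem hy, mul_zero]
          exact zero_le
      · rw [indicator_of_notMem hx, zero_mul]
        exact zero_le)
  have eA : ∀ D : Set (Fin n → ℝ), MeasurableSet D →
      ∫⁻ x, D.indicator (fun x => ENNReal.ofReal (G0 x)) x = (gam n) D := by
    intro D hD
    rw [gam_eq, withDensity_apply _ hD, lintegral_indicator hD]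
  have eU : ∫⁻ x : Fin n → ℝ, ENNReal.ofReal (G0 x) = 1 := by
    have h1 := eA univ MeasurableSet.univ
    rw [indicator_univ, measure_univ] at h1
    exact h1
  rw [eA A hA, eA B hB, lintegral_const_mul _ hGm, eU, mul_one,
    ← ENNReal.ofReal_pow (Real.exp_pos _).le, ← Real.exp_nat_mul] at hPL
  have h5 := ENNReal.toReal_mono ENNReal.ofReal_ne_top hPL
  rw [ENNReal.toReal_mul, ENNReal.toReal_ofReal (Real.exp_pos _).le] at h5
  refine h5.trans (le_of_eq ?_)
  congr 1
  push_cast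
  ring

/-- The closed ball of squared radius `T` for the Euclidean norm. -/
def eball (n : ℕ) (T : ℝ) : Set (Fin n → ℝ) := {h | ∑ k, h k ^ 2 ≤ T}

lemma eball_compact (n : ℕ) (T : ℝ) : IsCompact (eball n T) := by
  apply Metric.isCompact_of_isClosed_isBounded
  · exact isClosed_le (by fun_prop) continuous_const
  · refine (isBounded_iff_forall_norm_le).mpr ⟨Real.sqrt T, ?_⟩
    intro h hh
    rw [pi_norm_le_iff_of_nonneg (Real.sqrt_nonneg _)]
    intro k
    rw [Real.norm_eq_abs]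
    apply Real.abs_le_sqrt
    exact (Finset.single_le_sum (f := fun k => h k ^ 2) (fun i _ => sq_nonneg _)
      (Finset.mem_univ k)).trans hh

/-- A balanced set of measure at least `δ`: the sum `K + K` contains a ball. -/
lemma ball_sub {K : Set (Fin n → ℝ)} (hK : IsCompact K) (hbal : Balanced ℝ K) {δ : ℝ}
    (hδ : 0 < δ) (hKδ : δ ≤ (gam n).real K) {h : Fin n → ℝ}
    (hh : ∑ k, h k ^ 2 ≤ 2 * Real.pi * δ ^ 2) : h ∈ K + K := by
  have hKne : K.Nonempty := by
    by_contra hcon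
    rw [not_nonempty_iff_eq_empty] at hcon
    rw [hcon] at hKδ
    simp at hKδ
    linarith
  have h0K : (0 : Fin n → ℝ) ∈ K := by
    obtain ⟨a, ha⟩ := hKne
    exact hbal.zero_mem ⟨a, ha⟩
  have hsmall : ∀ h : Fin n → ℝ, ∑ k, h k ^ 2 < 2 * Real.pi * δ ^ 2 → h ∈ K + K := by
    intro h hh
    by_contra hnot
    have hN0 : 0 < ∑ k, h k ^ 2 := by
      apply lt_of_le_of_ne (Finset.sum_nonneg (fun k _ => sq_nonneg _))
      intro h0
      apply hnot
      have hz : h = 0 := by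
        funext k
        have := (Finset.sum_eq_zero_iff_of_nonneg (fun k _ => sq_nonneg (h k))).mp h0.symm k
          (Finset.mem_univ k)
        exact pow_eq_zero_iff (two_ne_zero) |>.mp this
      rw [hz, ← add_zero (0 : Fin n → ℝ)]
      exact add_mem_add h0K h0K
    have h1 := gam_le_of_notMem hK.measurableSet hbal rfl hN0 hnot
    have h2 := ENNReal.toReal_mono ENNReal.ofReal_ne_top h1
    rw [ENNReal.toReal_ofReal (Real.sqrt_nonneg _)] at h2
    have h3 : Real.sqrt ((∑ k, h k ^ 2) / (2 * Real.pi)) < δ := by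
      rw [Real.sqrt_lt' hδ, div_lt_iff₀ (by positivity)]
      linarith
    have h4 : δ ≤ ((gam n) K).toReal := hKδ
    linarith
  -- the sphere itself by closedness
  have hcl : IsClosed (K + K) := (hK.add hK).isClosed
  have hlim : Tendsto (fun j : ℕ => (1 - 1 / ((j : ℝ) + 1)) • h) atTop (𝓝 h) := by
    have h1 := (tendsto_one_div_add_atTop_nhds_zero_nat (𝕜 := ℝ)).const_sub 1
    have h2 := h1.smul_const h
    rw [sub_zero, one_smul] at h2
    exact h2
  apply hcl.mem_of_tendsto hlim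
  filter_upwards with j
  apply hsmall
  have hj0 : (0 : ℝ) < 1 / ((j : ℝ) + 1) := by positivity
  have hj1 : 1 / ((j : ℝ) + 1) ≤ 1 := by
    rw [div_le_one (by positivity)]
    have : (0:ℝ) ≤ j := by positivity
    linarith
  have e : ∑ k, ((1 - 1 / ((j : ℝ) + 1)) • h) k ^ 2
      = (1 - 1 / ((j : ℝ) + 1)) ^ 2 * ∑ k, h k ^ 2 := by
    rw [Finset.mul_sum]
    refine Finset.sum_congr rfl (fun k _ => ?_)
    simp only [Pi.smul_apply, smul_eq_mul]
    ring
  rw [e]
  have h5 : (1 - 1 / ((j : ℝ) + 1)) ^ 2 < 1 := by nlinarith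
  have h6 : (0:ℝ) < 2 * Real.pi * δ ^ 2 := by positivity
  calc (1 - 1 / ((j : ℝ) + 1)) ^ 2 * ∑ k, h k ^ 2
      ≤ (1 - 1 / ((j : ℝ) + 1)) ^ 2 * (2 * Real.pi * δ ^ 2) := by gcongr
    _ < 1 * (2 * Real.pi * δ ^ 2) := by gcongr
    _ = _ := one_mul _

lemma eball_sub {K : Set (Fin n → ℝ)} (hK : IsCompact K) (hbal : Balanced ℝ K) {δ : ℝ}
    (hδ : 0 < δ) (hKδ : δ ≤ (gam n).real K) (m : ℕ) :
    eball n (2 * Real.pi * (m * δ) ^ 2) ⊆ sumset (2 * m) K := by
  intro y hy
  rcases Nat.eq_zero_or_pos m with hm0 | hm0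
  · subst hm0
    have hz : y = 0 := by
      unfold eball at hy
      simp only [Nat.cast_zero, zero_mul, mem_ofPred_eq, ne_eq, OfNat.ofNat_ne_zero,
        not_false_eq_true, zero_pow, mul_zero] at hy
      funext k
      have h1 : y k ^ 2 ≤ 0 := (Finset.single_le_sum (f := fun k => y k ^ 2)
        (fun i _ => sq_nonneg _) (Finset.mem_univ k)).trans hy
      have h2 : y k ^ 2 = 0 := le_antisymm h1 (sq_nonneg _)
      exact pow_eq_zero_iff (two_ne_zero) |>.mp h2
    rw [hz]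
    exact sumset_zero_mem
  · have hmr : (0:ℝ) < m := by exact_mod_cast hm0
    set h : Fin n → ℝ := (1 / (m:ℝ)) • y with hh
    have hN : ∑ k, h k ^ 2 ≤ 2 * Real.pi * δ ^ 2 := by
      have e : ∑ k, h k ^ 2 = (1 / (m:ℝ)) ^ 2 * ∑ i, y i ^ 2 := by
        rw [Finset.mul_sum]
        refine Finset.sum_congr rfl (fun k _ => ?_)
        simp only [hh, Pi.smul_apply, smul_eq_mul]
        ring
      rw [e]
      have hy' : ∑ i, y i ^ 2 ≤ 2 * Real.pi * (m * δ) ^ 2 := hy
      calc (1 / (m:ℝ)) ^ 2 * ∑ i, y i ^ 2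
          ≤ (1 / (m:ℝ)) ^ 2 * (2 * Real.pi * (m * δ) ^ 2) := by gcongr
        _ = 2 * Real.pi * δ ^ 2 := by field_simp
    obtain ⟨a, ha, b, hb, hab⟩ := ball_sub hK hbal hδ hKδ hN
    have h2 : h ∈ sumset (1 + 1) K := by
      rw [← hab]
      exact sumset_add (sumset_one ha) (sumset_one hb)
    have h3 := sumset_nsmul h2 m
    have e : m • h = y := by
      rw [← Nat.cast_smul_eq_nsmul ℝ, hh, smul_smul]
      have : (m:ℝ) * (1 / (m:ℝ)) = 1 := by field_simp
      rw [this, one_smul]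
    rw [e] at h3
    exact h3

/-- The enlargement of a set of measure at least `δ` by a ball has large measure. -/
lemma enlarge_large {K : Set (Fin n → ℝ)} (hK : IsCompact K) {δ s T : ℝ}
    (hδ : 0 < δ) (hKδ : δ ≤ (gam n).real K) (hT : Real.exp (-(T / 4)) ≤ δ * s) :
    1 - s ≤ (gam n).real (K + eball n T) := by
  set K' := K + eball n T with hK'
  have hK'm : MeasurableSet K' := (hK.add (eball_compact n T)).measurableSet
  have hAB : ∀ x ∈ K, ∀ y ∈ K'ᶜ, T ≤ ∑ i, (x i - y i) ^ 2 := by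
    intro x hx y hy
    by_contra hcon
    push Not at hcon
    apply hy
    refine ⟨x, hx, y - x, ?_, by abel⟩
    have e : ∑ k, (y - x) k ^ 2 = ∑ i, (x i - y i) ^ 2 :=
      Finset.sum_congr rfl (fun k _ => by simp only [Pi.sub_apply]; ring)
    change ∑ k, (y - x) k ^ 2 ≤ T
    rw [e]
    exact hcon.le
  have h1 := conc hK.measurableSet hK'm.compl hAB
  have hc : (gam n).real K'ᶜ = 1 - (gam n).real K' := by rw [probReal_compl_eq_one_sub hK'm]
  have h0 : 0 ≤ (gam n).real K'ᶜ := measureReal_nonneg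
  have h3 : δ * (gam n).real K'ᶜ ≤ δ * s := by
    calc δ * (gam n).real K'ᶜ ≤ (gam n).real K * (gam n).real K'ᶜ := by gcongr
      _ ≤ δ * s := h1.trans hT
  have h4 := le_of_mul_le_mul_left h3 hδ
  linarith

/-- Every balanced compact set of Gaussian measure at least `δ > 0`. -/
theorem level {K : Set (ℕ → ℝ)} (hK : IsCompact K) (hbal : Balanced ℝ K) {δ ε : ℝ}
    (hδ : 0 < δ) (hKδ : δ ≤ gamInf.real K) (hε : 0 < ε) (hε1 : ε < 1) {m : ℕ}
    (hm : 8 * Real.log ((1 + 2 * ε) / (δ * ε)) ≤ Real.pi * (m * δ) ^ 2) :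
    ∃ C : Set (ℕ → ℝ), IsCompact C ∧ Convex ℝ C ∧ C ⊆ sumset (2 * m + 3) K ∧
      1 - ε ≤ gamInf.real C := by
  set d : ℕ → ℝ := fun n => 1 - (ε + (1 - ε) * (1 / ((n : ℝ) + 1))) with hd
  have hdt : Tendsto d atTop (𝓝 (1 - ε)) := by
    have h1 := (tendsto_one_div_add_atTop_nhds_zero_nat (𝕜 := ℝ)).const_mul (1 - ε)
    have h2 := (h1.const_add ε).const_sub 1
    rw [mul_zero, add_zero] at h2
    exact h2
  refine transfer (sumset_compact hK _) hdt ?_
  intro n
  have hpos : (0:ℝ) < 1 / ((n : ℝ) + 1) := by positivity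
  have hle : 1 / ((n : ℝ) + 1) ≤ 1 := by
    rw [div_le_one (by positivity)]
    have : (0:ℝ) ≤ n := by positivity
    linarith
  have hKn : δ ≤ (gam (n + 1)).real (pr (n + 1) '' K) := by
    rw [← map_pr, map_measureReal_apply (pr_cont _).measurable
      (hK.image (pr_cont _)).isClosed.measurableSet]
    exact hKδ.trans (measureReal_mono (subset_preimage_image _ _))
  have hbn : Balanced ℝ (pr (n + 1) '' K) := by
    intro a ha
    rintro _ ⟨_, ⟨x, hx, rfl⟩, rfl⟩
    exact ⟨a • x, hbal.smul_mem ha hx, rfl⟩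
  have hcn : IsCompact (pr (n + 1) '' K) := hK.image (pr_cont _)
  set T : ℝ := Real.pi * (m * δ) ^ 2 / 2 with hT
  set s : ℝ := ε / (1 + 2 * ε) with hs
  have h12 : 0 < 1 + 2 * ε := by linarith
  have hs3 : s < 1 / 3 := by
    rw [hs, div_lt_div_iff₀ h12 (by norm_num)]
    linarith
  have hexp : Real.exp (-(T / 4)) ≤ δ * s := by
    have e : δ * s = Real.exp (-Real.log ((1 + 2 * ε) / (δ * ε))) := by
      rw [Real.exp_neg, Real.exp_log (by positivity), inv_div, hs]
      ring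
    rw [e]
    apply Real.exp_le_exp.mpr
    rw [hT]
    linarith
  have hL := enlarge_large hcn hδ hKn hexp
  obtain ⟨C, hC1, hC2, hC3, hC4⟩ := finite_dim (Nat.succ_pos n)
    (hcn.add (eball_compact (n + 1) T)) (α := 1 - s)
    (θ := ε + (1 - ε) * (1 / ((n : ℝ) + 1))) (by linarith) hL (by
      have e1 : (1 - (1 - s)) / (2 * (1 - s) - 1) = ε := by
        have e2 : 2 * (1 - s) - 1 = 1 / (1 + 2 * ε) := by
          rw [hs]; field_simp; ring
        rw [e2, sub_sub_cancel, hs]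
        field_simp
      rw [e1]
      have : 0 < (1 - ε) * (1 / ((n : ℝ) + 1)) := mul_pos (by linarith) hpos
      linarith) (by
      have : (1 - ε) * (1 / ((n : ℝ) + 1)) ≤ (1 - ε) * 1 := by
        apply mul_le_mul_of_nonneg_left hle (by linarith)
      linarith)
  refine ⟨C, hC1, hC2, hC3.trans ?_, hC4⟩
  rintro _ ⟨⟨_, _, _⟩, ⟨⟨a, ha, u, hu, rfl⟩, ⟨b, hb, v, hv, rfl⟩, ⟨c, hc, w, hw, rfl⟩⟩, rfl⟩
  have h2 : |(-(1 / 2) : ℝ)| ≤ 1 := by rw [abs_neg, abs_of_pos] <;> norm_num
  have hz : u - (1 / 2 : ℝ) • (v + w) ∈ sumset (2 * m) (pr (n + 1) '' K) := by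
    apply eball_sub hcn hbn hδ hKn m
    have hu' : ∑ k, u k ^ 2 ≤ T := hu
    have hv' : ∑ k, v k ^ 2 ≤ T := hv
    have hw' : ∑ k, w k ^ 2 ≤ T := hw
    have h5 : ∑ k, (u - (1 / 2 : ℝ) • (v + w)) k ^ 2
        ≤ ∑ k, (2 * u k ^ 2 + (v k ^ 2 + w k ^ 2)) := by
      apply Finset.sum_le_sum
      intro k _
      simp only [Pi.sub_apply, Pi.smul_apply, Pi.add_apply, smul_eq_mul]
      nlinarith [sq_nonneg (u k + 1 / 2 * (v k + w k)), sq_nonneg (v k - w k)]
    rw [Finset.sum_add_distrib, Finset.sum_add_distrib, ← Finset.mul_sum] at h5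
    change ∑ k, (u - (1 / 2 : ℝ) • (v + w)) k ^ 2 ≤ 2 * Real.pi * (m * δ) ^ 2
    have h6 : 4 * T = 2 * Real.pi * (m * δ) ^ 2 := by rw [hT]; ring
    linarith
  have h3 := sumset_add hz (sumset_add (sumset_one ha)
    (sumset_add (sumset_smul hbn (sumset_one hb) h2) (sumset_smul hbn (sumset_one hc) h2)))
  have e : u - (1 / 2 : ℝ) • (v + w) + (a + ((-(1 / 2) : ℝ) • b + (-(1 / 2) : ℝ) • c))
      = a + u - (1 / 2 : ℝ) • (b + v + (c + w)) := by module
  rw [e] at h3
  obtain ⟨y, hy, hxy⟩ := h3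
  choose z hz hzy using hy
  refine ⟨∑ i, z i, ⟨z, hz, rfl⟩, ?_⟩
  simp only
  rw [hxy]
  funext j
  simp only [pr, Finset.sum_apply]
  refine Finset.sum_congr rfl (fun i _ => ?_)
  rw [← hzy i]
  rfl

end Pool.Agent.TalK
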