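import Pool.Agent.TalK.Final

/-!
# Small vectors belong to `K + K` for a balanced set of positive Gaussian measure
-/

set_option autoImplicit false

open MeasureTheory ProbabilityTheory Set Metric Filter Topology
open scoped ENNReal NNReal Pointwise

namespace Pool.Agent.TalK

open Pool.Agent.Talagrand

variable {n : ℕ}

/-- The law of a linear form under the standard Gaussian measure. -/
lemma gam_map_lin (h : Fin n → ℝ) :
    (gam n).map (fun x => ∑ k, h k * x k) = gaussianReal 0 (∑ k, h k ^ 2).toNNReal := by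
  have hX : ∀ k : Fin n, HasGaussianLaw (fun x : Fin n → ℝ => h k * x k) (gam n) := by
    intro k
    have hmp := measurePreserving_eval (fun _ : Fin n => gaussianReal 0 1) k
    have h1 : HasGaussianLaw (fun x : Fin n → ℝ => x k) (gam n) := by
      refine ⟨?_⟩
      have h2 : (gam n).map (fun x : Fin n → ℝ => x k) = gaussianReal 0 1 := hmp.map_eq
      rw [h2]; infer_instance
    exact h1.fun_smul (h k)
  have hind : iIndepFun (fun (k : Fin n) (x : Fin n → ℝ) => h k * x k) (gam n) :=
    iIndepFun_pi (X := fun k t => h k * t) (fun k => by fun_prop)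
  have hG := (iIndepFun.hasGaussianLaw_fun_sum hX hind).map_eq_gaussianReal
  have hi : ∀ k : Fin n, Integrable (fun x : Fin n → ℝ => h k * x k) (gam n) :=
    fun k => (gam_coord n k).1.const_mul _
  have hE : ∫ x, ∑ k, h k * x k ∂(gam n) = 0 := by
    rw [integral_finsetSum _ (fun k _ => hi k)]
    apply Finset.sum_eq_zero
    intro k _
    rw [integral_const_mul, (gam_coord n k).2, mul_zero]
  have hV : Var[fun x => ∑ k, h k * x k; gam n] = ∑ k, h k ^ 2 := by
    have hmL : Measurable (fun x : Fin n → ℝ => ∑ k, h k * x k) := by fun_prop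
    rw [variance_eq_integral hmL.aemeasurable, hE]
    simp only [sub_zero]
    have e : ∀ x : Fin n → ℝ, (∑ k, h k * x k) ^ 2 = ∑ k, ∑ l, (h k * h l) * (x k * x l) := by
      intro x
      rw [sq, Finset.sum_mul_sum]
      exact Finset.sum_congr rfl (fun k _ => Finset.sum_congr rfl (fun l _ => by ring))
    simp only [e]
    have i2 : ∀ k l : Fin n, Integrable (fun x : Fin n → ℝ => (h k * h l) * (x k * x l)) (gam n) :=
      fun k l => (gam_mul n k l).1.const_mul _
    rw [integral_finsetSum _ (fun k _ => integrable_finsetSum _ (fun l _ => i2 k l))]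
    refine Finset.sum_congr rfl (fun k _ => ?_)
    rw [integral_finsetSum _ (fun l _ => i2 k l)]
    have : ∀ l, ∫ x : Fin n → ℝ, (h k * h l) * (x k * x l) ∂(gam n)
        = if k = l then h k * h l else 0 := by
      intro l
      rw [integral_const_mul, (gam_mul n k l).2]
      split_ifs <;> ring
    simp only [this]
    simp [sq]
  rw [hG, hE, hV]

/-- The Gaussian measure of a slab. -/
lemma slab_le (h : Fin n → ℝ) {N : ℝ} (hN : ∑ k, h k ^ 2 = N) (hN0 : 0 < N) :
    gam n {x | -(N / 2) ≤ ∑ k, h k * x k ∧ ∑ k, h k * x k < N / 2}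
      ≤ ENNReal.ofReal (Real.sqrt (N / (2 * Real.pi))) := by
  have hm : Measurable (fun x : Fin n → ℝ => ∑ k, h k * x k) := by fun_prop
  have e : {x : Fin n → ℝ | -(N / 2) ≤ ∑ k, h k * x k ∧ ∑ k, h k * x k < N / 2}
      = (fun x : Fin n → ℝ => ∑ k, h k * x k) ⁻¹' (Ico (-(N / 2)) (N / 2)) := by
    ext x; simp
  rw [e, ← Measure.map_apply hm measurableSet_Ico, gam_map_lin, hN,
    gaussianReal_apply _ (by simpa using hN0)]
  have hpdf : ∀ x : ℝ, gaussianPDF 0 N.toNNReal x
      ≤ ENNReal.ofReal ((Real.sqrt (2 * Real.pi * N))⁻¹) := by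
    intro x
    unfold gaussianPDF gaussianPDFReal
    apply ENNReal.ofReal_le_ofReal
    rw [Real.coe_toNNReal _ hN0.le]
    have h1 : Real.exp (-(x - 0) ^ 2 / (2 * N)) ≤ 1 := by
      rw [Real.exp_le_one_iff]
      apply div_nonpos_of_nonpos_of_nonneg _ (by positivity)
      have := sq_nonneg (x - 0)
      linarith
    calc (Real.sqrt (2 * Real.pi * N))⁻¹ * Real.exp (-(x - 0) ^ 2 / (2 * N))
        ≤ (Real.sqrt (2 * Real.pi * N))⁻¹ * 1 := by gcongr
      _ = _ := mul_one _
  calc ∫⁻ x in Ico (-(N / 2)) (N / 2), gaussianPDF 0 N.toNNReal x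
      ≤ ∫⁻ _x in Ico (-(N / 2)) (N / 2), ENNReal.ofReal ((Real.sqrt (2 * Real.pi * N))⁻¹) :=
        lintegral_mono hpdf
    _ = ENNReal.ofReal ((Real.sqrt (2 * Real.pi * N))⁻¹) * ENNReal.ofReal N := by
        rw [setLIntegral_const, Real.volume_Ico]
        congr 2
        ring
    _ = ENNReal.ofReal (Real.sqrt (N / (2 * Real.pi))) := by
        rw [← ENNReal.ofReal_mul (by positivity)]
        congr 1
        rw [Real.sqrt_mul (by positivity), Real.sqrt_div hN0.le, mul_inv]
        have h1 : Real.sqrt N * Real.sqrt N = N := Real.mul_self_sqrt hN0.le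
        have h2 : 0 < Real.sqrt N := Real.sqrt_pos.mpr hN0
        have h3 : 0 < Real.sqrt (2 * Real.pi) := Real.sqrt_pos.mpr (by positivity)
        field_simp
        nlinarith

lemma G0_shift (h : Fin n → ℝ) {N : ℝ} (hN : ∑ k, h k ^ 2 = N) (x : Fin n → ℝ) (j : ℝ) :
    G0 (x + j • h) = G0 x * Real.exp (-(j * ∑ k, h k * x k) - j ^ 2 * N / 2) := by
  have e1 : -(j * ∑ k, h k * x k) - j ^ 2 * N / 2
      = ∑ k, (-(j * (h k * x k)) - j ^ 2 * h k ^ 2 / 2) := by
    rw [Finset.sum_sub_distrib, Finset.sum_neg_distrib, ← Finset.mul_sum, ← Finset.sum_div,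
      ← Finset.mul_sum, hN]
  rw [e1, Real.exp_sum]
  unfold G0
  rw [← Finset.prod_mul_distrib]
  refine Finset.prod_congr rfl (fun k _ => ?_)
  unfold gaussianPDFReal
  rw [mul_assoc (Real.sqrt _)⁻¹, ← Real.exp_add]
  congr 2
  simp only [Pi.add_apply, Pi.smul_apply, smul_eq_mul, sub_zero, NNReal.coe_one, mul_one]
  ring

/-- If `h` is not in `K + K`, then `K` has small measure. -/
lemma gam_le_of_notMem {K : Set (Fin n → ℝ)} (hK : MeasurableSet K) (hbal : Balanced ℝ K)
    {h : Fin n → ℝ} {N : ℝ} (hN : ∑ k, h k ^ 2 = N) (hN0 : 0 < N) (hnot : h ∉ K + K) :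
    gam n K ≤ ENNReal.ofReal (Real.sqrt (N / (2 * Real.pi))) := by
  classical
  refine le_trans ?_ (slab_le h hN hN0)
  set L : (Fin n → ℝ) → ℝ := fun x => ∑ k, h k * x k with hL
  have hLm : Measurable L := by fun_prop
  set P : ℤ → Set (Fin n → ℝ) := fun j =>
    {x | ((j : ℝ) - 1 / 2) * N ≤ L x ∧ L x < ((j : ℝ) + 1 / 2) * N} with hP
  have hPm : ∀ j, MeasurableSet (P j) := fun j =>
    (measurableSet_le measurable_const hLm).inter (measurableSet_lt hLm measurable_const)
  have hPiff : ∀ (j : ℤ) (x : Fin n → ℝ), x ∈ P j ↔ ⌊L x / N + 1 / 2⌋ = j := by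
    intro j x
    simp only [hP, mem_ofPred_eq]
    rw [Int.floor_eq_iff]
    constructor
    · rintro ⟨h1, h2⟩
      constructor
      · rw [← sub_le_iff_le_add, le_div_iff₀ hN0]; exact h1
      · have : L x / N < (j : ℝ) + 1 / 2 := by rw [div_lt_iff₀ hN0]; exact h2
        linarith
    · rintro ⟨h1, h2⟩
      constructor
      · rw [← le_div_iff₀ hN0]; linarith
      · rw [← div_lt_iff₀ hN0]; linarith
  have hLs : ∀ (x : Fin n → ℝ) (j : ℝ), L (x + j • h) = L x + j * N := by
    intro x j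
    simp only [hL, Pi.add_apply, Pi.smul_apply, smul_eq_mul]
    rw [← hN, Finset.mul_sum, ← Finset.sum_add_distrib]
    exact Finset.sum_congr rfl (fun k _ => by ring)
  have hPs : ∀ (x : Fin n → ℝ) (j : ℤ), x + (j : ℝ) • h ∈ P j ↔ x ∈ P 0 := by
    intro x j
    simp only [hP, mem_ofPred_eq, hLs, Int.cast_zero]
    constructor <;> rintro ⟨h1, h2⟩ <;> constructor <;> linarith
  have hGm : Measurable (fun x : Fin n → ℝ => ENNReal.ofReal (G0 x)) :=
    G0_cont.measurable.ennreal_ofReal
  set F : ℤ → (Fin n → ℝ) → ℝ≥0∞ := fun j =>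
    (P j ∩ K).indicator (fun x => ENNReal.ofReal (G0 x)) with hF
  have hFm : ∀ j, Measurable (F j) := fun j => hGm.indicator ((hPm j).inter hK)
  have h1 : ∀ x, ∑' j, F j x = K.indicator (fun x => ENNReal.ofReal (G0 x)) x := by
    intro x
    rw [tsum_eq_single (⌊L x / N + 1 / 2⌋)]
    · have : x ∈ P ⌊L x / N + 1 / 2⌋ := (hPiff _ x).mpr rfl
      simp only [hF, indicator, mem_inter_iff, this, true_and]
    · intro j hj
      simp only [hF]
      rw [indicator_of_notMem]
      rintro ⟨h2, -⟩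
      exact hj ((hPiff j x).mp h2).symm
  have h2 : ∀ (j : ℤ) (x : Fin n → ℝ), F j (x + (j : ℝ) • h)
      ≤ (P 0).indicator (fun x => ENNReal.ofReal (G0 x)) x
        * K.indicator (fun _ => (1 : ℝ≥0∞)) (x + (j : ℝ) • h) := by
    intro j x
    by_cases hx : x ∈ P 0
    · by_cases hxK : x + (j : ℝ) • h ∈ K
      · have hmm : x + (j : ℝ) • h ∈ P j ∩ K := ⟨(hPs x j).mpr hx, hxK⟩
        simp only [hF]
        rw [indicator_of_mem hmm, indicator_of_mem hx,
          indicator_of_mem hxK, mul_one]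
        apply ENNReal.ofReal_le_ofReal
        rw [G0_shift h hN]
        have hexp : Real.exp (-((j : ℝ) * ∑ k, h k * x k) - (j : ℝ) ^ 2 * N / 2) ≤ 1 := by
          rw [Real.exp_le_one_iff]
          have hx1 : -(N / 2) ≤ L x ∧ L x ≤ N / 2 := by
            obtain ⟨a, b⟩ := hx
            simp only [Int.cast_zero] at a b
            constructor <;> linarith
          have hj : |(j : ℝ)| ≤ (j : ℝ) ^ 2 := by
            rcases eq_or_ne j 0 with h0 | h0
            · subst h0; simp
            · have h5 : (1 : ℤ) ≤ |j| := Int.one_le_abs h0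
              have h6 : (1 : ℝ) ≤ |(j : ℝ)| := by exact_mod_cast h5
              rw [← sq_abs]
              nlinarith
          have h3 : |(j : ℝ) * L x| ≤ |(j : ℝ)| * (N / 2) := by
            rw [abs_mul]
            have := abs_le.mpr hx1
            gcongr
          have h4 := (abs_le.mp h3).1
          have h5 : |(j : ℝ)| * (N / 2) ≤ (j : ℝ) ^ 2 * (N / 2) := by gcongr
          change -((j : ℝ) * L x) - (j : ℝ) ^ 2 * N / 2 ≤ 0
          linarith
        have := G0_pos x
        nlinarith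
      · have : x + (j : ℝ) • h ∉ P j ∩ K := fun hcon => hxK hcon.2
        simp only [hF]
        rw [indicator_of_notMem this]
        exact zero_le
    · have : x + (j : ℝ) • h ∉ P j ∩ K := fun hcon => hx ((hPs x j).mp hcon.1)
      simp only [hF]
      rw [indicator_of_notMem this]
      exact zero_le
  have h3 : ∀ x : Fin n → ℝ,
      ∑' j : ℤ, K.indicator (fun _ => (1 : ℝ≥0∞)) (x + (j : ℝ) • h) ≤ 1 := by
    intro x
    by_cases hex : ∃ j₀ : ℤ, x + (j₀ : ℝ) • h ∈ K
    · obtain ⟨j₀, hj₀⟩ := hex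
      rw [tsum_eq_single j₀]
      · rw [indicator_of_mem hj₀]
      · intro j hj
        rw [indicator_of_notMem]
        intro hjK
        apply hnot
        have hd : ((j : ℝ) - j₀) ≠ 0 := by
          rw [sub_ne_zero]
          exact_mod_cast hj
        have hd1 : |((j : ℝ) - j₀)⁻¹| ≤ 1 := by
          rw [abs_inv]
          apply inv_le_one_of_one_le₀
          have h5 : (1 : ℤ) ≤ |j - j₀| := Int.one_le_abs (sub_ne_zero.mpr hj)
          exact_mod_cast h5
        have m1 : ((j : ℝ) - j₀)⁻¹ • (x + (j : ℝ) • h) ∈ K :=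
          hbal.smul_mem (by rw [Real.norm_eq_abs]; exact hd1) hjK
        have m2 : (-((j : ℝ) - j₀)⁻¹) • (x + (j₀ : ℝ) • h) ∈ K :=
          hbal.smul_mem (by rw [Real.norm_eq_abs, abs_neg]; exact hd1) hj₀
        have e : h = ((j : ℝ) - j₀)⁻¹ • (x + (j : ℝ) • h)
            + (-((j : ℝ) - j₀)⁻¹) • (x + (j₀ : ℝ) • h) := by
          have e2 : ((j : ℝ) - j₀)⁻¹ • (x + (j : ℝ) • h)
            + (-((j : ℝ) - j₀)⁻¹) • (x + (j₀ : ℝ) • h)
            = (((j : ℝ) - j₀)⁻¹ * ((j : ℝ) - j₀)) • h := by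
            module
          rw [e2, inv_mul_cancel₀ hd, one_smul]
        rw [e]
        exact add_mem_add m1 m2
    · push Not at hex
      rw [ENNReal.tsum_eq_zero.mpr]
      · exact zero_le_one
      · intro j
        rw [indicator_of_notMem (hex j)]
  have e0 : (gam n : Measure (Fin n → ℝ)) K
      = ∫⁻ x, K.indicator (fun x => ENNReal.ofReal (G0 x)) x := by
    rw [gam_eq, withDensity_apply _ hK, lintegral_indicator hK]
  have e00 : (gam n : Measure (Fin n → ℝ)) (P 0)
      = ∫⁻ x, (P 0).indicator (fun x => ENNReal.ofReal (G0 x)) x := by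
    rw [gam_eq, withDensity_apply _ (hPm 0), lintegral_indicator (hPm 0)]
  have eP : {x : Fin n → ℝ | -(N / 2) ≤ ∑ k, h k * x k ∧ ∑ k, h k * x k < N / 2} = P 0 := by
    ext x
    simp only [hP, hL, mem_ofPred_eq, Int.cast_zero]
    constructor <;> rintro ⟨a, b⟩ <;> constructor <;> linarith
  rw [eP, e0, e00]
  have hKs : ∀ j : ℤ, Measurable (fun x : Fin n → ℝ =>
      K.indicator (fun _ => (1 : ℝ≥0∞)) (x + (j : ℝ) • h)) := fun j =>
    (measurable_const.indicator hK).comp (by fun_prop)
  calc ∫⁻ x, K.indicator (fun x => ENNReal.ofReal (G0 x)) x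
      = ∫⁻ x, ∑' j, F j x := lintegral_congr (fun x => (h1 x).symm)
    _ = ∑' j, ∫⁻ x, F j x := lintegral_tsum (fun j => (hFm j).aemeasurable)
    _ = ∑' j : ℤ, ∫⁻ x, F j (x + (j : ℝ) • h) := by
        congr 1
        funext j
        exact (lintegral_add_right_eq_self (F j) ((j : ℝ) • h)).symm
    _ ≤ ∑' j : ℤ, ∫⁻ x, (P 0).indicator (fun x => ENNReal.ofReal (G0 x)) x
        * K.indicator (fun _ => (1 : ℝ≥0∞)) (x + (j : ℝ) • h) :=
        ENNReal.tsum_le_tsum (fun j => lintegral_mono (h2 j))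
    _ = ∫⁻ x, ∑' j : ℤ, (P 0).indicator (fun x => ENNReal.ofReal (G0 x)) x
        * K.indicator (fun _ => (1 : ℝ≥0∞)) (x + (j : ℝ) • h) :=
        (lintegral_tsum (fun j => ((hGm.indicator (hPm 0)).mul (hKs j)).aemeasurable)).symm
    _ ≤ ∫⁻ x, (P 0).indicator (fun x => ENNReal.ofReal (G0 x)) x := by
        apply lintegral_mono
        intro x
        simp only
        rw [ENNReal.tsum_mul_left]
        calc _ ≤ (P 0).indicator (fun x => ENNReal.ofReal (G0 x)) x * 1 := by
              gcongr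
              exact h3 x
          _ = _ := mul_one _

end Pool.Agent.TalK
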