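import Pool.Agent.TalK.Cov

/-!
# The splitting step with a constant arbitrarily close to one half
-/

set_option autoImplicit false

open MeasureTheory Set
open scoped ENNReal MatrixOrder

namespace Pool.Agent.TalK

open Pool.Agent.Talagrand

variable {n : ℕ} {R κ : ℝ} {φ : (Fin n → ℝ) → ℝ}

/-- The one coordinate gain with a factor close to one. -/
lemma one_coord {a b τ θ : ℝ} (hτ0 : 0 ≤ τ) (hτ : τ ≤ 1) (ha : |a| ≤ τ) (hb : |b| ≤ τ)
    (hθ0 : 0 ≤ θ) (hθ : θ * (1 + 7 * τ) ≤ 1) :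
    (1 + a) * (1 + b) * Real.exp (θ * (a - b) ^ 2 / 4) ≤ (1 + (a + b) / 2) ^ 2 := by
  have hθ1 : θ ≤ 1 := by nlinarith
  have hd1 : (a - b) ^ 2 ≤ 4 * τ ^ 2 := by
    have h1 : |a - b| ≤ 2 * τ := (abs_sub a b).trans (by linarith)
    have h2 : |a - b| ^ 2 ≤ (2 * τ) ^ 2 := by gcongr
    rw [sq_abs] at h2
    linarith
  rw [abs_le] at ha hb
  set d := (a - b) ^ 2 with hd
  have hd0 : 0 ≤ d := sq_nonneg _
  set x := θ * d / 4 with hx
  have hx0 : 0 ≤ x := by positivity
  have hxτ : x ≤ τ ^ 2 := by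
    have : θ * d ≤ 1 * (4 * τ ^ 2) := by gcongr
    rw [hx]; linarith
  have hτ2 : τ ^ 2 ≤ 1 := by nlinarith
  have he : Real.exp x ≤ 1 + x * (1 + τ ^ 2) := by
    have h := Real.abs_exp_sub_one_sub_id_le (x := x) (by
      rw [abs_of_nonneg hx0]; linarith)
    have h1 := (abs_le.mp h).2
    have h2 : x ^ 2 ≤ x * τ ^ 2 := by
      rw [sq]; gcongr
    linarith
  have hP0 : 0 ≤ (1 + a) * (1 + b) := by
    apply mul_nonneg <;> linarith
  have hP : (1 + a) * (1 + b) ≤ (1 + τ) ^ 2 := by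
    rw [sq]
    have h1 : 0 ≤ 1 + b := by linarith
    have h2 : 0 ≤ 1 + τ := by linarith
    apply mul_le_mul (by linarith) (by linarith) h1 h2
  have hpoly : (1 + τ) ^ 2 * (1 + τ ^ 2) ≤ 1 + 7 * τ := by
    have h3 : τ ^ 3 ≤ τ := by
      calc τ ^ 3 = τ * τ ^ 2 := by ring
        _ ≤ τ * 1 := by gcongr
        _ = τ := mul_one _
    have h4 : τ ^ 4 ≤ τ := by
      calc τ ^ 4 = τ * τ ^ 3 := by ring
        _ ≤ τ * 1 := by
            gcongr
            linarith
        _ = τ := mul_one _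
    have h2 : τ ^ 2 ≤ τ := by nlinarith
    have e : (1 + τ) ^ 2 * (1 + τ ^ 2) = 1 + 2 * τ + 2 * τ ^ 2 + 2 * τ ^ 3 + τ ^ 4 := by ring
    rw [e]; linarith
  calc (1 + a) * (1 + b) * Real.exp x ≤ (1 + a) * (1 + b) * (1 + x * (1 + τ ^ 2)) := by gcongr
    _ = (1 + a) * (1 + b) + ((1 + a) * (1 + b)) * (x * (1 + τ ^ 2)) := by ring
    _ ≤ (1 + a) * (1 + b) + (1 + τ) ^ 2 * (x * (1 + τ ^ 2)) := by gcongr
    _ = (1 + a) * (1 + b) + ((1 + τ) ^ 2 * (1 + τ ^ 2)) * x := by ring
    _ ≤ (1 + a) * (1 + b) + (1 + 7 * τ) * x := by gcongr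
    _ = (1 + a) * (1 + b) + (θ * (1 + 7 * τ)) * (d / 4) := by rw [hx]; ring
    _ ≤ (1 + a) * (1 + b) + 1 * (d / 4) := by gcongr
    _ = (1 + (a + b) / 2) ^ 2 := by rw [hd]; ring

lemma LC_tilt (hlc : LC κ φ) (hnn : ∀ x, 0 ≤ φ x) (hsupp : ∀ x, φ x ≠ 0 → ‖x‖ ≤ R)
    {ε θ : ℝ} (hR : 0 ≤ R) (hε : 0 ≤ ε) (hεR : 2 * R * ε ≤ 1 / 10) (hθ0 : 0 ≤ θ)
    (hθ : θ * (1 + 7 * (2 * R * ε)) ≤ 1) {b : Fin n → ℝ} (hb : ‖b‖ ≤ R)
    (σ : Fin n → Bool) : LC (κ + θ * ε ^ 2) (fun x => wt ε b σ x * φ x) := by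
  intro x y
  by_cases hx : φ x = 0
  · simp only [hx]; simp; positivity
  by_cases hy : φ y = 0
  · simp only [hy]; simp; positivity
  have hxR := hsupp x hx
  have hyR := hsupp y hy
  have hτ0 : 0 ≤ 2 * R * ε := by positivity
  have hw : wt ε b σ x * wt ε b σ y * Real.exp (θ * ε ^ 2 / 4 * ∑ i, (x i - y i) ^ 2)
      ≤ wt ε b σ ((1 / 2 : ℝ) • (x + y)) ^ 2 := by
    unfold wt
    rw [Finset.mul_sum, Real.exp_sum, ← Finset.prod_mul_distrib, ← Finset.prod_mul_distrib,
      ← Finset.prod_pow]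
    apply Finset.prod_le_prod
    · intro k _
      have h1 := (coord_bound hε hxR hb (σ k) k).trans hεR
      have h2 := (coord_bound hε hyR hb (σ k) k).trans hεR
      rw [abs_le] at h1 h2
      have : 0 ≤ 1 + sg (σ k) * (ε * (x k - b k)) := by linarith
      have : 0 ≤ 1 + sg (σ k) * (ε * (y k - b k)) := by linarith
      positivity
    · intro k _
      have h1 := coord_bound hε hxR hb (σ k) k
      have h2 := coord_bound hε hyR hb (σ k) k
      have h3 := one_coord hτ0 (by linarith) h1 h2 hθ0 hθ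
      have e1 : θ * (sg (σ k) * (ε * (x k - b k)) - sg (σ k) * (ε * (y k - b k))) ^ 2 / 4
          = θ * ε ^ 2 / 4 * (x k - y k) ^ 2 := by
        have : (sg (σ k) * (ε * (x k - b k)) - sg (σ k) * (ε * (y k - b k)))
          = sg (σ k) * (ε * (x k - y k)) := by ring
        rw [this, mul_pow, sg_sq]; ring
      rw [e1] at h3
      refine h3.trans (le_of_eq ?_)
      congr 1
      simp only [Pi.smul_apply, Pi.add_apply, smul_eq_mul]
      ring
  have hl := hlc x y
  have e2 : Real.exp ((κ + θ * ε ^ 2) / 4 * ∑ i, (x i - y i) ^ 2)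
      = Real.exp (θ * ε ^ 2 / 4 * ∑ i, (x i - y i) ^ 2)
        * Real.exp (κ / 4 * ∑ i, (x i - y i) ^ 2) := by
    rw [← Real.exp_add]; congr 1; ring
  simp only
  rw [e2]
  have hnx := hnn x
  have hny := hnn y
  calc wt ε b σ x * φ x * (wt ε b σ y * φ y) *
        (Real.exp (θ * ε ^ 2 / 4 * ∑ i, (x i - y i) ^ 2) *
          Real.exp (κ / 4 * ∑ i, (x i - y i) ^ 2))
      = (wt ε b σ x * wt ε b σ y * Real.exp (θ * ε ^ 2 / 4 * ∑ i, (x i - y i) ^ 2)) *
        (φ x * φ y * Real.exp (κ / 4 * ∑ i, (x i - y i) ^ 2)) := by ring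
    _ ≤ (wt ε b σ ((1 / 2 : ℝ) • (x + y)) ^ 2) * (φ ((1 / 2 : ℝ) • (x + y)) ^ 2) := by
        gcongr
    _ = _ := by ring

lemma sum_Au_sq (h : Dens R κ φ) (hκ : 0 < κ) (u : Fin n → ℝ) :
    ∑ k, Au φ u k ^ 2 ≤ 1 / κ ^ 2 * ∑ k, u k ^ 2 := by
  set U := ∑ k, u k ^ 2 with hU
  set a := Au φ u with ha
  set A := ∑ k, a k ^ 2 with hA
  set T : (Fin n → ℝ) → ℝ := fun x => ∑ k, u k * (x k - bary φ k) with hT
  set S : (Fin n → ℝ) → ℝ := fun x => ∑ k, a k * (x k - bary φ k) with hS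
  have hTc : Continuous T := by fun_prop
  have hSc : Continuous S := by fun_prop
  have e1 : A = ∫ x, (T x * S x) * φ x := by
    have : ∀ x, (T x * S x) * φ x = ∑ k, a k * (T x * (x k - bary φ k) * φ x) := by
      intro x
      simp only [hS, Finset.mul_sum, Finset.sum_mul]
      exact Finset.sum_congr rfl (fun k _ => by ring)
    simp only [this]
    rw [integral_finsetSum]
    · simp only [integral_const_mul]
      rw [hA]
      refine Finset.sum_congr rfl (fun k _ => ?_)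
      rw [sq]; rfl
    · intro k _
      exact (h.integrable_mul_cont (F := fun x => T x * (x k - bary φ k))
        (by fun_prop)).const_mul _
  have hcT := cov_le h hκ u
  have hcS := cov_le h hκ a
  have iT : Integrable (fun x => T x ^ 2 * φ x) := h.integrable_mul_cont (by fun_prop)
  have iS : Integrable (fun x => S x ^ 2 * φ x) := h.integrable_mul_cont (by fun_prop)
  have e2 : ∫ x, (T x * S x) * φ x ≤ (1 / (2 * κ)) * (∫ x, T x ^ 2 * φ x)
      + (κ / 2) * (∫ x, S x ^ 2 * φ x) := by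
    rw [← integral_const_mul, ← integral_const_mul, ← integral_add (iT.const_mul _)
      (iS.const_mul _)]
    apply integral_mono
    · exact h.integrable_mul_cont (F := fun x => T x * S x) (by fun_prop)
    · exact (iT.const_mul _).add (iS.const_mul _)
    · intro x
      have hn := h.nn x
      simp only
      have : T x * S x ≤ 1 / (2 * κ) * T x ^ 2 + κ / 2 * S x ^ 2 := by
        have e : 1 / (2 * κ) * T x ^ 2 + κ / 2 * S x ^ 2 - T x * S x
            = (T x - κ * S x) ^ 2 / (2 * κ) := by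
          field_simp
          ring
        have : 0 ≤ (T x - κ * S x) ^ 2 / (2 * κ) := by positivity
        linarith
      calc T x * S x * φ x ≤ (1 / (2 * κ) * T x ^ 2 + κ / 2 * S x ^ 2) * φ x := by gcongr
        _ = _ := by ring
  have h3 : A ≤ (1 / (2 * κ)) * (1 / κ * U) + (κ / 2) * (1 / κ * A) := by
    rw [← e1] at e2
    refine e2.trans ?_
    gcongr
  have h4 : (κ / 2) * (1 / κ * A) = A / 2 := by field_simp
  have h5 : (1 / (2 * κ)) * (1 / κ * U) = (1 / κ ^ 2 * U) / 2 := by field_simp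
  rw [h4, h5] at h3
  linarith

/-- The quadratic form bound for the covariance of the new barycentres. -/
lemma quad_bound (h : Dens R κ φ) (hκ : 0 < κ) {ε η : ℝ} (hε : 0 ≤ ε)
    (hεR : 2 * R * ε ≤ 1 / 10) (hη : 0 < η) (hm : ∀ σ, 1 ≤ (1 + η) * mass ε φ σ)
    (u : Fin n → ℝ) :
    ∑ σ : Fin n → Bool, (1 / 2 : ℝ) ^ n * mass ε φ σ *
        (∑ k, u k * (qq ε φ σ k / mass ε φ σ)) ^ 2
      ≤ ((1 + η) ^ 2 * ε ^ 2 / κ ^ 2
        + (1 + η) * (1 + 1 / η) * (4 * R ^ 2 * n * KK n R ε ^ 2)) * ∑ k, u k ^ 2 := by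
  have hR := h.R_nonneg
  set U := ∑ k, u k ^ 2 with hU
  set e : ℝ := (2 * R * ∑ k, |u k|) * KK n R ε with he
  have hKK0 : 0 ≤ KK n R ε := by unfold KK; positivity
  have he0 : 0 ≤ e := by positivity
  have hterm : ∀ σ : Fin n → Bool, (1 / 2 : ℝ) ^ n * mass ε φ σ *
        (∑ k, u k * (qq ε φ σ k / mass ε φ σ)) ^ 2
      ≤ (1 / 2 : ℝ) ^ n * ((1 + η) ^ 2 * ε ^ 2 * (∑ k, Au φ u k * sg (σ k)) ^ 2
        + (1 + η) * (1 + 1 / η) * e ^ 2) := by
    intro σ
    have hmσ := hm σ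
    have hm0 : 0 < mass ε φ σ := by
      by_contra hcon
      push Not at hcon
      have : (1 + η) * mass ε φ σ ≤ 0 := mul_nonpos_of_nonneg_of_nonpos (by linarith) hcon
      linarith
    have e1 : ∑ k, u k * (qq ε φ σ k / mass ε φ σ) = (∑ k, u k * qq ε φ σ k) / mass ε φ σ := by
      rw [Finset.sum_div]
      exact Finset.sum_congr rfl (fun k _ => by ring)
    rw [e1, mul_assoc]
    gcongr
    set Q := ∑ k, u k * qq ε φ σ k with hQ
    set L := ∑ k, Au φ u k * sg (σ k) with hL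
    have h1 : |Q - ε * L| ≤ e := h.lin_qq hε hεR σ u
    have h2 : Q ^ 2 ≤ (1 + η) * (ε * L) ^ 2 + (1 + 1 / η) * e ^ 2 := by
      have h3 : (Q - ε * L) ^ 2 ≤ e ^ 2 := by
        rw [← sq_abs]
        gcongr
      have e4 : (1 + η) * (ε * L) ^ 2 + (1 + 1 / η) * (Q - ε * L) ^ 2 - Q ^ 2
          = (η * (ε * L) - (Q - ε * L)) ^ 2 / η := by
        field_simp
        ring
      have h5 : 0 ≤ (η * (ε * L) - (Q - ε * L)) ^ 2 / η := by positivity
      have h6 : (1 + 1 / η) * (Q - ε * L) ^ 2 ≤ (1 + 1 / η) * e ^ 2 := by gcongr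
      linarith
    have e2 : mass ε φ σ * (Q / mass ε φ σ) ^ 2 = Q ^ 2 / mass ε φ σ := by
      field_simp
    rw [e2, div_le_iff₀ hm0]
    calc Q ^ 2 ≤ (1 + η) * (ε * L) ^ 2 + (1 + 1 / η) * e ^ 2 := h2
      _ = ((1 + η) * (ε * L) ^ 2 + (1 + 1 / η) * e ^ 2) * 1 := (mul_one _).symm
      _ ≤ ((1 + η) * (ε * L) ^ 2 + (1 + 1 / η) * e ^ 2) * ((1 + η) * mass ε φ σ) := by gcongr
      _ = _ := by ring
  have hc : (∑ k, |u k|) ^ 2 ≤ n * U := by
    have := sq_sum_le_card_mul_sum_sq (s := (Finset.univ : Finset (Fin n))) (f := fun k => |u k|)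
    simpa [sq_abs, hU] using this
  have he2 : e ^ 2 ≤ 4 * R ^ 2 * n * KK n R ε ^ 2 * U := by
    calc e ^ 2 = (4 * R ^ 2 * KK n R ε ^ 2) * (∑ k, |u k|) ^ 2 := by rw [he]; ring
      _ ≤ (4 * R ^ 2 * KK n R ε ^ 2) * (n * U) := by gcongr
      _ = _ := by ring
  have hAu := sum_Au_sq h hκ u
  have hpow : (1 / 2 : ℝ) ^ n * 2 ^ n = 1 := by rw [← mul_pow]; norm_num
  calc ∑ σ : Fin n → Bool, (1 / 2 : ℝ) ^ n * mass ε φ σ *
        (∑ k, u k * (qq ε φ σ k / mass ε φ σ)) ^ 2
      ≤ ∑ σ : Fin n → Bool,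
          (1 / 2 : ℝ) ^ n * ((1 + η) ^ 2 * ε ^ 2 * (∑ k, Au φ u k * sg (σ k)) ^ 2
            + (1 + η) * (1 + 1 / η) * e ^ 2) :=
        Finset.sum_le_sum (fun σ _ => hterm σ)
    _ = (1 + η) ^ 2 * ε ^ 2 * ∑ k, Au φ u k ^ 2 + (1 + η) * (1 + 1 / η) * e ^ 2 := by
        rw [← Finset.mul_sum, Finset.sum_add_distrib, ← Finset.mul_sum, sum_sq_sign]
        simp only [Finset.sum_const, Finset.card_univ, Fintype.card_pi, Fintype.card_bool,
          Finset.prod_const, Fintype.card_fin, nsmul_eq_mul]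
        push_cast
        calc (1 / 2 : ℝ) ^ n * ((1 + η) ^ 2 * ε ^ 2 * (2 ^ n * ∑ k, Au φ u k ^ 2)
              + 2 ^ n * ((1 + η) * (1 + 1 / η) * e ^ 2))
            = ((1 / 2 : ℝ) ^ n * 2 ^ n) * ((1 + η) ^ 2 * ε ^ 2 * ∑ k, Au φ u k ^ 2
              + (1 + η) * (1 + 1 / η) * e ^ 2) := by ring
          _ = _ := by rw [hpow, one_mul]
    _ ≤ (1 + η) ^ 2 * ε ^ 2 * (1 / κ ^ 2 * U)
        + (1 + η) * (1 + 1 / η) * (4 * R ^ 2 * n * KK n R ε ^ 2 * U) := by gcongr
    _ = _ := by ring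

/-- Conclusion of the splitting step for a density `φ`. -/
structure SplitC (c₀ R κ κ' v r : ℝ) (φ : (Fin n → ℝ) → ℝ) : Prop where
  ex : ∃ (ι : Type) (_ : Fintype ι) (p : ι → ℝ) (ψ : ι → (Fin n → ℝ) → ℝ)
    (h h' : ι → Fin n → ℝ),
    (∀ j, 0 ≤ p j) ∧ ∑ j, p j = 1 ∧ (∀ j, Dens R κ' (ψ j)) ∧
    (∀ x, φ x = ∑ j, p j * ψ j x) ∧
    (∀ j, c₀ • (h j + h' j) = bary (ψ j) - bary φ) ∧
    Mom p h v r ∧ Mom p h' v r

lemma split_aux (h : Dens R κ φ) (hn : 0 < n) (hκ : 0 < κ) {c₀ ε v η θ : ℝ}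
    (hc₀ : 1 / 2 ≤ c₀) (hε : 0 ≤ ε)
    (hεR : 2 * R * ε ≤ 1 / 10) (hK : KK n R ε ≤ 1 / 3) (hη : 0 < η)
    (hKη : (1 + η) * KK n R ε ≤ η) (hθ0 : 0 ≤ θ) (hθ : θ * (1 + 7 * (2 * R * ε)) ≤ 1)
    (hv : (1 + η) ^ 2 * ε ^ 2 / κ ^ 2
        + (1 + η) * (1 + 1 / η) * (4 * R ^ 2 * n * KK n R ε ^ 2) ≤ 4 * c₀ ^ 2 * v)
    (hvε : v ≤ ε ^ 2) :
    SplitC c₀ R κ (κ + θ * ε ^ 2) v ((8 * R ^ 2 * (n * 2 ^ n) + n) * ε) φ := by
  have hc0 : 0 < c₀ := by linarith
  obtain ⟨w, hw0, hw1, hwc⟩ : ∃ w : ℝ, 0 < w ∧ w ≤ 1 ∧ 2 * c₀ * w = 1 := by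
    refine ⟨1 / (2 * c₀), by positivity, ?_, by field_simp⟩
    rw [div_le_one (by positivity)]
    linarith
  have hwc2 : w ^ 2 * (4 * c₀ ^ 2 * v) = v := by
    calc w ^ 2 * (4 * c₀ ^ 2 * v) = (2 * c₀ * w) ^ 2 * v := by ring
      _ = v := by rw [hwc]; ring
  have hmη : ∀ σ : Fin n → Bool, 1 ≤ (1 + η) * mass ε φ σ := by
    intro σ
    have h1 := h.abs_mass_sub_one hε hεR σ
    rw [abs_le] at h1
    have h2 : (1 + η) * (1 - KK n R ε) ≤ (1 + η) * mass ε φ σ := by
      apply mul_le_mul_of_nonneg_left _ (by linarith)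
      linarith
    nlinarith
  have hR := h.R_nonneg
  have hm : ∀ σ : Fin n → Bool, 2 / 3 ≤ mass ε φ σ := by
    intro σ
    have := h.abs_mass_sub_one hε hεR σ
    rw [abs_le] at this
    linarith
  have hm0 : ∀ σ : Fin n → Bool, 0 < mass ε φ σ := fun σ => by have := hm σ; linarith
  set c : ℝ := (1 / 2 : ℝ) ^ n with hc
  have hc0 : 0 < c := by positivity
  have hpow : c * 2 ^ n = 1 := by rw [hc, ← mul_pow]; norm_num
  set d : (Fin n → Bool) → Fin n → ℝ := fun σ k => qq ε φ σ k / mass ε φ σ with hd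
  -- the pieces
  set ψ : (Fin n → Bool) → (Fin n → ℝ) → ℝ :=
    fun σ x => (mass ε φ σ)⁻¹ * (wt ε (bary φ) σ x * φ x) with hψ
  have hψD : ∀ σ, Dens R (κ + θ * ε ^ 2) (ψ σ) := by
    intro σ
    have hmσ := hm0 σ
    have hnn : ∀ x, 0 ≤ wt ε (bary φ) σ x * φ x := by
      intro x
      by_cases hx : φ x = 0
      · simp [hx]
      · have hxR := h.supp x hx
        apply mul_nonneg _ (h.nn x)
        unfold wt
        apply Finset.prod_nonneg
        intro k _
        have h1 := (coord_bound hε hxR h.norm_bary_le (σ k) k).trans hεR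
        rw [abs_le] at h1
        linarith
    refine ⟨?_, ?_, ?_, ?_, ?_, ?_⟩
    · exact measurable_const.mul ((wt_cont _ _ _).measurable.mul h.meas)
    · intro x
      have := hnn x
      positivity
    · intro x hx
      apply h.supp x
      intro h0
      apply hx
      simp [hψ, h0]
    · exact (h.integrable_wt _ _ _).const_mul _
    · simp only [hψ]
      rw [integral_const_mul]
      exact inv_mul_cancel₀ hmσ.ne'
    · intro x y
      have h1 := LC_tilt h.lc h.nn h.supp hR hε hεR hθ0 hθ h.norm_bary_le σ x y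
      simp only at h1
      simp only [hψ]
      calc (mass ε φ σ)⁻¹ * (wt ε (bary φ) σ x * φ x) *
            ((mass ε φ σ)⁻¹ * (wt ε (bary φ) σ y * φ y)) *
            Real.exp ((κ + θ * ε ^ 2) / 4 * ∑ i, (x i - y i) ^ 2)
          = (mass ε φ σ)⁻¹ ^ 2 * (wt ε (bary φ) σ x * φ x * (wt ε (bary φ) σ y * φ y) *
            Real.exp ((κ + θ * ε ^ 2) / 4 * ∑ i, (x i - y i) ^ 2)) := by ring
        _ ≤ (mass ε φ σ)⁻¹ ^ 2 * (wt ε (bary φ) σ ((1 / 2 : ℝ) • (x + y)) *
            φ ((1 / 2 : ℝ) • (x + y))) ^ 2 := by gcongr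
        _ = _ := by ring
  have hbary : ∀ σ k, bary (ψ σ) k = bary φ k + d σ k := by
    intro σ k
    have hmσ := hm0 σ
    change ∫ x, x k * ((mass ε φ σ)⁻¹ * (wt ε (bary φ) σ x * φ x))
      = bary φ k + qq ε φ σ k / mass ε φ σ
    have e : ∀ x : Fin n → ℝ, x k * ((mass ε φ σ)⁻¹ * (wt ε (bary φ) σ x * φ x))
        = (mass ε φ σ)⁻¹ * ((x k - bary φ k) * (wt ε (bary φ) σ x * φ x))
          + ((mass ε φ σ)⁻¹ * bary φ k) * (wt ε (bary φ) σ x * φ x) := by
      intro x; ring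
    simp only [e]
    rw [integral_add ((h.integrable_q _ _ _).const_mul _) ((h.integrable_wt _ _ _).const_mul _),
      integral_const_mul, integral_const_mul]
    change (mass ε φ σ)⁻¹ * qq ε φ σ k + (mass ε φ σ)⁻¹ * bary φ k * mass ε φ σ = _
    field_simp
    ring
  have hdbd : ∀ σ k, |d σ k| ≤ 8 * (R ^ 2 * (n * 2 ^ n) * ε) := by
    intro σ k
    have hmσ := hm0 σ
    have h1 := h.abs_qq_le hε hεR σ k
    simp only [hd]
    rw [abs_div, abs_of_pos hmσ, div_le_iff₀ hmσ]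
    calc |qq ε φ σ k| ≤ (2 * R) * (n * 2 ^ n * (2 * R * ε)) := h1
      _ = (6 * (R ^ 2 * (n * 2 ^ n) * ε)) * (2 / 3) := by ring
      _ ≤ (8 * (R ^ 2 * (n * 2 ^ n) * ε)) * mass ε φ σ := by
          have := hm σ
          gcongr
          norm_num
  -- the complementary covariance matrix
  set P : Matrix (Fin n) (Fin n) ℝ := fun k l =>
    (if k = l then v else 0) - w ^ 2 * ∑ σ, c * mass ε φ σ * (d σ k * d σ l) with hP
  have hPs : P.PosSemidef := by
    apply Matrix.PosSemidef.of_dotProduct_mulVec_nonneg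
    · refine Matrix.IsHermitian.ext (fun k l => ?_)
      rw [star_trivial]
      have e1 : (if l = k then v else 0) = (if k = l then v else 0) := by
        simp only [eq_comm]
      have e2 : ∑ σ, c * mass ε φ σ * (d σ l * d σ k) = ∑ σ, c * mass ε φ σ * (d σ k * d σ l) :=
        Finset.sum_congr rfl (fun σ _ => by ring)
      simp only [hP, e1, e2]
    · intro u
      have hq := quad_bound h hκ hε hεR hη hmη u
      have e : star u ⬝ᵥ P.mulVec u = v * ∑ k, u k ^ 2
          - w ^ 2 * ∑ σ, c * mass ε φ σ * (∑ k, u k * d σ k) ^ 2 := by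
        simp only [dotProduct, Matrix.mulVec, hP, star_trivial]
        have e1 : ∀ k, u k * ∑ l, ((if k = l then v else 0)
            - w ^ 2 * ∑ σ, c * mass ε φ σ * (d σ k * d σ l)) * u l
            = v * u k ^ 2 - w ^ 2 * ∑ σ, c * mass ε φ σ * (u k * d σ k * ∑ l, u l * d σ l) := by
          intro k
          simp only [sub_mul, Finset.sum_sub_distrib, mul_sub]
          congr 1
          · simp; ring
          · simp only [Finset.mul_sum, Finset.sum_mul]
            rw [Finset.sum_comm]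
            refine Finset.sum_congr rfl (fun σ _ => Finset.sum_congr rfl (fun l _ => by ring))
        simp only [e1]
        rw [Finset.sum_sub_distrib, ← Finset.mul_sum, ← Finset.mul_sum, Finset.sum_comm]
        congr 2
        refine Finset.sum_congr rfl (fun σ _ => ?_)
        rw [← Finset.mul_sum, ← Finset.sum_mul, sq]
      rw [e]
      have hU : 0 ≤ ∑ k, u k ^ 2 := Finset.sum_nonneg (fun k _ => sq_nonneg _)
      have h2 : ∑ σ, c * mass ε φ σ * (∑ k, u k * d σ k) ^ 2 ≤ (4 * c₀ ^ 2 * v) * ∑ k, u k ^ 2 :=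
        hq.trans (by gcongr)
      have h3 : w ^ 2 * ∑ σ, c * mass ε φ σ * (∑ k, u k * d σ k) ^ 2 ≤ v * ∑ k, u k ^ 2 := by
        calc w ^ 2 * ∑ σ, c * mass ε φ σ * (∑ k, u k * d σ k) ^ 2
            ≤ w ^ 2 * ((4 * c₀ ^ 2 * v) * ∑ k, u k ^ 2) := by gcongr
          _ = (w ^ 2 * (4 * c₀ ^ 2 * v)) * ∑ k, u k ^ 2 := by ring
          _ = v * ∑ k, u k ^ 2 := by rw [hwc2]
      linarith
  obtain ⟨B, hB⟩ := CStarAlgebra.nonneg_iff_eq_star_mul_self.mp hPs.nonneg
  have hB' : ∀ k l, ∑ i, B i k * B i l = P k l := by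
    intro k l
    rw [hB]
    simp [Matrix.mul_apply, Matrix.star_apply]
  have hBbd : ∀ i k, |B i k| ≤ ε := by
    intro i k
    have h1 : B i k ^ 2 ≤ v := by
      calc B i k ^ 2 ≤ ∑ i, B i k * B i k := by
            have := Finset.single_le_sum (f := fun i => B i k * B i k)
              (fun i _ => mul_self_nonneg _) (Finset.mem_univ i)
            simpa [sq] using this
        _ = P k k := hB' k k
        _ ≤ v := by
          simp only [hP, if_true]
          have : 0 ≤ ∑ σ, c * mass ε φ σ * (d σ k * d σ k) := by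
            apply Finset.sum_nonneg
            intro σ _
            have := hm0 σ
            have := mul_self_nonneg (d σ k)
            positivity
          have h4 : 0 ≤ w ^ 2 * ∑ σ, c * mass ε φ σ * (d σ k * d σ k) := by positivity
          linarith
    exact abs_le_of_sq_le_sq (h1.trans hvε) hε
  set N : ℝ := Real.sqrt n with hN
  have hN2 : N * N = n := Real.mul_self_sqrt (by positivity)
  have hn' : (0:ℝ) < n := by exact_mod_cast hn
  have hNle : N ≤ n := by
    rw [hN]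
    rw [Real.sqrt_le_left hn'.le]
    have : (1:ℝ) ≤ n := by exact_mod_cast hn
    nlinarith
  -- moments
  have hmom : ∀ δ : ℝ, δ ^ 2 = 1 → |δ| = 1 →
      Mom (ι := (Fin n → Bool) × Fin n × Bool) (fun j => c * mass ε φ j.1 / (2 * n))
        (fun j k => w * d j.1 k + δ * sg j.2.2 * N * B j.2.1 k) v
        ((8 * R ^ 2 * (n * 2 ^ n) + n) * ε) := by
    intro δ hδ hδ1
    refine ⟨?_, ?_, ?_⟩
    · intro k
      simp only [Fintype.sum_prod_type, Fintype.sum_bool, sg_true, sg_false]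
      have e : ∀ (σ : Fin n → Bool) (i : Fin n),
          c * mass ε φ σ / (2 * n) * (w * d σ k + δ * 1 * N * B i k)
          + c * mass ε φ σ / (2 * n) * (w * d σ k + δ * -1 * N * B i k)
          = (c * w) * (qq ε φ σ k) / n := by
        intro σ i
        have := (hm0 σ).ne'
        simp only [hd]
        field_simp
        ring
      simp only [e, Finset.sum_const, Finset.card_univ, Fintype.card_fin, nsmul_eq_mul]
      have e' : ∀ σ : Fin n → Bool, (n:ℝ) * ((c * w) * (qq ε φ σ k) / n)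
          = (c * w) * qq ε φ σ k := by
        intro σ; field_simp
      simp only [e']
      rw [← Finset.mul_sum, h.sum_qq, mul_zero]
    · intro k l
      simp only [Fintype.sum_prod_type, Fintype.sum_bool, sg_true, sg_false]
      have e : ∀ (σ : Fin n → Bool) (i : Fin n),
          c * mass ε φ σ / (2 * n) * ((w * d σ k + δ * 1 * N * B i k) *
            (w * d σ l + δ * 1 * N * B i l))
          + c * mass ε φ σ / (2 * n) * ((w * d σ k + δ * -1 * N * B i k) *
            (w * d σ l + δ * -1 * N * B i l))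
          = (1 / n) * (w ^ 2 * (c * mass ε φ σ * (d σ k * d σ l)))
            + c * mass ε φ σ * (B i k * B i l) := by
        intro σ i
        have e1 : (w * d σ k + δ * 1 * N * B i k) * (w * d σ l + δ * 1 * N * B i l)
            + (w * d σ k + δ * -1 * N * B i k) * (w * d σ l + δ * -1 * N * B i l)
            = 2 * w ^ 2 * (d σ k * d σ l) + 2 * (δ ^ 2 * (N * N)) * (B i k * B i l) := by ring
        rw [← mul_add, e1, hδ, hN2]
        field_simp
      simp only [e, Finset.sum_add_distrib, Finset.sum_const, Finset.card_univ, Fintype.card_fin,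
        nsmul_eq_mul, ← Finset.mul_sum, hB']
      rw [← Finset.sum_mul, ← Finset.mul_sum, h.sum_mass, hpow, one_mul]
      have e4 : P k l = (if k = l then v else 0)
        - w ^ 2 * ∑ σ, c * mass ε φ σ * (d σ k * d σ l) := rfl
      have e5 : (n:ℝ) * ((1 / n) * (w ^ 2 * ∑ σ, c * mass ε φ σ * (d σ k * d σ l)))
        = w ^ 2 * ∑ σ, c * mass ε φ σ * (d σ k * d σ l) := by field_simp
      rw [e5, e4]
      ring
    · intro j
      rw [pi_norm_le_iff_of_nonneg (by positivity)]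
      intro k
      rw [Real.norm_eq_abs]
      calc |w * d j.1 k + δ * sg j.2.2 * N * B j.2.1 k|
          ≤ |w * d j.1 k| + |δ * sg j.2.2 * N * B j.2.1 k| := abs_add_le _ _
        _ = w * |d j.1 k| + N * |B j.2.1 k| := by
            have hN0 : |N| = N := abs_of_nonneg (Real.sqrt_nonneg _)
            rw [abs_mul, abs_mul, abs_mul, abs_mul, abs_sg, hδ1, hN0, abs_of_pos hw0]
            norm_num
        _ ≤ 1 * (8 * (R ^ 2 * (n * 2 ^ n) * ε)) + n * ε := by
            gcongr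
            · exact hdbd _ _
            · exact hBbd _ _
        _ = _ := by ring
  -- index type and data
  refine ⟨⟨(Fin n → Bool) × Fin n × Bool, inferInstance,
    fun j => c * mass ε φ j.1 / (2 * n), fun j => ψ j.1,
    fun j k => w * d j.1 k + sg j.2.2 * N * B j.2.1 k,
    fun j k => w * d j.1 k - sg j.2.2 * N * B j.2.1 k, ?_, ?_, ?_, ?_, ?_, ?_, ?_⟩⟩
  · intro j
    have := hm0 j.1
    positivity
  · simp only [Fintype.sum_prod_type]
    simp only [Finset.sum_const, Finset.card_univ, Fintype.card_bool, Fintype.card_fin,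
      nsmul_eq_mul]
    have : ∀ σ : Fin n → Bool, (n : ℝ) * (((2:ℕ):ℝ) * (c * mass ε φ σ / (2 * n)))
        = c * mass ε φ σ := by
      intro σ; push_cast; field_simp
    simp only [this]
    rw [← Finset.mul_sum, h.sum_mass, hpow]
  · intro j; exact hψD j.1
  · intro x
    simp only [Fintype.sum_prod_type]
    simp only [Finset.sum_const, Finset.card_univ, Fintype.card_bool, Fintype.card_fin,
      nsmul_eq_mul]
    have : ∀ σ : Fin n → Bool, (n : ℝ) * (((2:ℕ):ℝ) * (c * mass ε φ σ / (2 * n) * ψ σ x))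
        = c * (wt ε (bary φ) σ x * φ x) := by
      intro σ
      have := hm0 σ
      simp only [hψ]
      push_cast; field_simp
    simp only [this]
    rw [← Finset.mul_sum, ← Finset.sum_mul, sum_wt, ← mul_assoc, hpow, one_mul]
  · intro j
    funext k
    simp only [Pi.smul_apply, Pi.add_apply, Pi.sub_apply, smul_eq_mul, hbary]
    calc c₀ * (w * d j.1 k + sg j.2.2 * N * B j.2.1 k + (w * d j.1 k - sg j.2.2 * N * B j.2.1 k))
        = (2 * c₀ * w) * d j.1 k := by ring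
      _ = bary φ k + d j.1 k - bary φ k := by rw [hwc]; ring
  · have := hmom 1 (by norm_num) (by norm_num)
    simpa using this
  · have := hmom (-1) (by norm_num) (by norm_num)
    convert this using 3
    ring

end Pool.Agent.TalK
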